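import Pool.Agent.Lib.MP_aa609a_lc.Build
/-! Bridges between operators and Turing reducibility. -/
namespace Pool.Agent.FS.LowPA
open Pool.Agent.Shared.Oracle Pool.Agent.Shared.Oracle.FP Pool.Agent.Lib.MP_aa609a_lc

/-- A set computed by `D` is enumerated from `D` by a c.e. operator (use `use_principle`). -/
theorem out_of_red (D G : ℕ → Bool)
    (h : TuringReducible (fun n => Part.some (G n).toNat) (fun n => Part.some (D n).toNat)) :
    ∃ W : List Bool × ℕ → Prop, REPred W ∧ Out W D = {i | G i = true} := by
  obtain ⟨F, hF, e⟩ := use_principle (X := D) (RecursiveIn.iff_nat.1 h)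
  have hP : Partrec fun p : List Bool × ℕ => F p.1 p.2 := hF.1
  refine ⟨fun p => 1 ∈ F p.1 p.2,
    re_comp (re_mem hP) (Computable.id.pair (Computable.const 1)), ?_⟩
  ext i
  have e1 := e i 1
  have e2 : (1 ∈ Part.some (G i).toNat) ↔ G i = true := by
    cases G i <;> simp
  exact e1.symm.trans e2

end Pool.Agent.FS.LowPA
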