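import Pool.Agent.Lib.MP_aa609a_lc.Build

/-! Bridges between operators and Turing reducibility: the reduction principle. -/

namespace Pool.Agent.FS.LowPA

open Pool.Agent.Shared.Oracle Pool.Agent.Shared.Oracle.FP Pool.Agent.Lib.MP_aa609a_lc

/-- A primitive recursive stage relation, read along the initial segments of the oracle. -/
theorem cin_stage (D : ℕ → Bool) (q : List Bool × ℕ → ℕ → Prop) [DecidableRel q]
    (hq : PrimrecRel q) :
    ComputableIn {orc D} fun p : ℕ × ℕ => decide (q (seg D p.2.unpair.1, p.1) p.2.unpair.2) := by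
  have hs : ComputableIn {orc D} (seg D) := cin_seg (cin_orc rfl)
  have h1 : Primrec fun p : ℕ × ℕ => p.2.unpair.1 :=
    Primrec.fst.comp (Primrec.unpair.comp Primrec.snd)
  have h2 : Primrec fun p : ℕ × ℕ => p.2.unpair.2 :=
    Primrec.snd.comp (Primrec.unpair.comp Primrec.snd)
  have h3 : Primrec fun p : (List Bool × ℕ) × ℕ => decide (q p.1 p.2) := hq.decide
  have h4 : ComputableIn {orc D} fun p : ℕ × ℕ => seg D p.2.unpair.1 :=
    cin_comp (f := seg D) (g := fun p : ℕ × ℕ => p.2.unpair.1) hs h1.computableIn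
  have h5 : ComputableIn {orc D} fun p : ℕ × ℕ => (seg D p.2.unpair.1, p.1) :=
    cin_pair (f := fun p : ℕ × ℕ => seg D p.2.unpair.1) (g := fun p : ℕ × ℕ => p.1) h4
      Primrec.fst.computableIn
  have h6 : ComputableIn {orc D} fun p : ℕ × ℕ => ((seg D p.2.unpair.1, p.1), p.2.unpair.2) :=
    cin_pair (f := fun p : ℕ × ℕ => (seg D p.2.unpair.1, p.1))
      (g := fun p : ℕ × ℕ => p.2.unpair.2) h5 h2.computableIn
  have h7 := cin_comp (f := fun p : (List Bool × ℕ) × ℕ => decide (q p.1 p.2))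
    (g := fun p : ℕ × ℕ => ((seg D p.2.unpair.1, p.1), p.2.unpair.2)) h3.computableIn h6
  exact cin_of_eq h7 fun _ => rfl

/-- The search step of the reduction principle, for two decidable stage relations. -/
theorem red_search {O : Set (ℕ →. ℕ)} (A B : ℕ → ℕ → Bool)
    (hA : ComputableIn O fun p : ℕ × ℕ => A p.1 p.2)
    (hB : ComputableIn O fun p : ℕ × ℕ => B p.1 p.2)
    (hc : ∀ n, ∃ m, A n m = true ∨ B n m = true) :
    ∃ X : ℕ → Bool, ComputableIn O X ∧
      ∀ n, (X n = true → ∃ m, A n m = true) ∧ (X n = false → ∃ m, B n m = true) := by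
  have hP0 := cin_cond (c := fun p : ℕ × ℕ => A p.1 p.2) (f := fun _ => true)
    (g := fun p : ℕ × ℕ => B p.1 p.2) hA (ComputableIn.const true) hB
  have hP : ComputableIn₂ O fun n m => cond (A n m) true (B n m) := hP0
  have hex : ∀ n, ∃ m, (fun n m => cond (A n m) true (B n m)) n m = true := fun n => by
    obtain ⟨m, h | h⟩ := hc n
    · exact ⟨m, by simp [h]⟩
    · exact ⟨m, by cases h' : A n m <;> simp [h, h']⟩
  have hf := cin_find hP hex
  have hp := cin_pair (f := fun n : ℕ => n) (g := fun n => Nat.find (hex n)) ComputableIn.id hf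
  have hX := cin_comp (f := fun p : ℕ × ℕ => A p.1 p.2)
    (g := fun n : ℕ => (n, Nat.find (hex n))) hA hp
  refine ⟨fun n => A n (Nat.find (hex n)), hX, fun n => ⟨fun h => ⟨_, h⟩, fun h => ?_⟩⟩
  have hs : cond (A n (Nat.find (hex n))) true (B n (Nat.find (hex n))) = true :=
    Nat.find_spec (hex n)
  have h' : A n (Nat.find (hex n)) = false := h
  rw [h'] at hs
  exact ⟨Nat.find (hex n), hs⟩

/-- Reduction principle (use `re_normal`, `cin_seg`, `cin_find`, `orc_iff`). -/
theorem red_of_cover (D : ℕ → Bool) (W0 W1 : List Bool × ℕ → Prop) (h0 : REPred W0)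
    (h1 : REPred W1) (hc : ∀ n, n ∈ Out W0 D ∨ n ∈ Out W1 D) :
    ∃ X : ℕ → Bool,
      TuringReducible (fun n => Part.some (X n).toNat) (fun n => Part.some (D n).toNat) ∧
      ∀ n, (X n = true → n ∈ Out W0 D) ∧ (X n = false → n ∈ Out W1 D) := by
  classical
  obtain ⟨q0, p0, e0⟩ := re_normal h0
  obtain ⟨q1, p1, e1⟩ := re_normal h1
  obtain ⟨X, hX, h⟩ := red_search (O := {orc D})
    (fun n m => decide (q0 (seg D m.unpair.1, n) m.unpair.2))
    (fun n m => decide (q1 (seg D m.unpair.1, n) m.unpair.2))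
    (cin_stage D q0 p0) (cin_stage D q1 p1) fun n => by
      rcases hc n with ⟨k, hk⟩ | ⟨k, hk⟩
      · obtain ⟨t, ht⟩ := (e0 _).1 hk
        refine ⟨Nat.pair k t, Or.inl ?_⟩
        rw [Nat.unpair_pair]
        exact decide_eq_true ht
      · obtain ⟨t, ht⟩ := (e1 _).1 hk
        refine ⟨Nat.pair k t, Or.inr ?_⟩
        rw [Nat.unpair_pair]
        exact decide_eq_true ht
  refine ⟨X, orc_iff.2 hX, fun n => ⟨fun hn => ?_, fun hn => ?_⟩⟩
  · obtain ⟨m, hm⟩ := (h n).1 hn
    exact ⟨_, (e0 _).2 ⟨_, of_decide_eq_true hm⟩⟩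
  · obtain ⟨m, hm⟩ := (h n).2 hn
    exact ⟨_, (e1 _).2 ⟨_, of_decide_eq_true hm⟩⟩

end Pool.Agent.FS.LowPA
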