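import Pool.Agent.FS.LowPA.Verify

/-! The construction is computable. -/

namespace Pool.Agent.FS.LowPA

open Pool.Agent.Shared.Oracle Pool.Agent.Shared.Oracle.FP Pool.Agent.Lib.MP_aa609a_lc
open Encodable Nat.Partrec

section Comp

variable {α : Type} [Primcodable α]

theorem c_natrec {σ : Type} [Primcodable σ] {f : α → ℕ} {g : α → σ} {h : α → ℕ → σ → σ}
    (hf : Computable f) (hg : Computable g)
    (hh : Computable fun p : α × ℕ × σ => h p.1 p.2.1 p.2.2) :
    Computable fun a => Nat.rec (motive := fun _ => σ) (g a) (fun t r => h a t r) (f a) :=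
  Computable.nat_rec (h := fun a p => h a p.1 p.2) hf hg hh

theorem c_app {σ β : Type} [Primcodable σ] [Primcodable β] {p : α → β → σ}
    (hp : Computable fun q : α × β => p q.1 q.2) {γ : Type} [Primcodable γ] {f : γ → α}
    {g : γ → β} (hf : Computable f) (hg : Computable g) : Computable fun x => p (f x) (g x) :=
  hp.comp (hf.pair hg)

@[fun_prop] theorem c_lastp {p : α → ℕ → Bool} {s : α → ℕ}
    (hp : Computable fun q : α × ℕ => p q.1 q.2) (hs : Computable s) :
    Computable fun a => lastp (p a) (s a) :=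
  c_natrec (h := fun a t r => cond (p a t) (t + 1) r) hs (c_const _)
    (c_cond (c_app hp (by fun_prop) (by fun_prop)) (by fun_prop) (by fun_prop))

@[fun_prop] theorem c_own {act : α → ℕ → ℕ × ℕ} {s x : α → ℕ}
    (ha : Computable fun q : α × ℕ => act q.1 q.2) (hs : Computable s) (hx : Computable x) :
    Computable fun a => own (act a) (s a) (x a) := by
  have h1 : Computable fun p : α × ℕ × ℕ × ℕ => act p.1 p.2.1 :=
    c_app ha (by fun_prop) (by fun_prop)
  have h2 : Computable fun p : α × ℕ × ℕ × ℕ => x p.1 := hx.comp Computable.fst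
  have h3 : Computable fun p : α × ℕ × ℕ × ℕ => decide (x p.1 < p.2.1) :=
    c_decide_lt h2 (Computable.fst.comp Computable.snd)
  have h5 : Computable fun p : α × ℕ × ℕ × ℕ => p.2.2 := Computable.snd.comp Computable.snd
  have h4 : Computable fun p : α × ℕ × ℕ × ℕ => decide (p.2.2.1 ≤ (act p.1 p.2.1).1) :=
    c_decide_le (f := fun p : α × ℕ × ℕ × ℕ => p.2.2.1) (g := fun p => (act p.1 p.2.1).1)
      (c_fst h5) (c_fst h1)
  have h6 := c_natrec (σ := ℕ × ℕ)
    (h := fun a t r => cond (decide (x a < t) && decide (r.1 ≤ (act a t).1)) r (act a t))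
    hs (c_const (0, 0)) (c_cond (c_and h3 h4) h5 h1)
  exact h6

variable {eA eB : ℕ → ℕ → Bool}

theorem c_ent (hA : Computable fun q : ℕ × ℕ => eA q.1 q.2)
    (hB : Computable fun q : ℕ × ℕ => eB q.1 q.2) {s n : α → ℕ} (hs : Computable s)
    (hn : Computable n) : Computable fun a => ent eA eB (s a) (n a) :=
  c_or (c_app hA hs hn) (c_app hB hs hn)

theorem c_flp (hA : Computable fun q : ℕ × ℕ => eA q.1 q.2)
    (hB : Computable fun q : ℕ × ℕ => eB q.1 q.2) {act : α → ℕ → ℕ × ℕ} {s x : α → ℕ}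
    (ha : Computable fun q : α × ℕ => act q.1 q.2) (hs : Computable s) (hx : Computable x) :
    Computable fun a => flp (act a) eA eB (s a) (x a) := by
  have h1 := c_snd (c_own ha hs hx)
  have h2 := c_div h1 (c_const 2)
  exact c_and (c_and (c_decide_eq (c_mod h1 (c_const 2)) (c_const 1))
    (c_app hB (c_add hs (c_const 1)) h2)) (c_not (c_ent hA hB hs h2))

theorem c_clr (hA : Computable fun q : ℕ × ℕ => eA q.1 q.2)
    (hB : Computable fun q : ℕ × ℕ => eB q.1 q.2) {act : α → ℕ → ℕ × ℕ} {s x : α → ℕ}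
    (ha : Computable fun q : α × ℕ => act q.1 q.2) (hs : Computable s) (hx : Computable x) :
    Computable fun a => clr (act a) eA eB (s a) (x a) := by
  have h1 : Computable fun p : (α × ℕ × Bool) × ℕ => act p.1.1 p.2 :=
    c_app ha (by fun_prop) (by fun_prop)
  have h2 : Computable fun p : α × ℕ × Bool => x p.1 := hx.comp Computable.fst
  exact c_natrec (h := fun a t r => xor r (flp (act a) eA eB t (x a))) hs (c_const _)
    (c_xor (by fun_prop) (c_flp hA hB (act := fun p : α × ℕ × Bool => act p.1) h1 (by fun_prop) h2))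

theorem c_edge (hA : Computable fun q : ℕ × ℕ => eA q.1 q.2)
    (hB : Computable fun q : ℕ × ℕ => eB q.1 q.2) {act : α → ℕ → ℕ × ℕ} {s x y : α → ℕ}
    (ha : Computable fun q : α × ℕ => act q.1 q.2) (hs : Computable s) (hx : Computable x)
    (hy : Computable y) : Computable fun a => edge (act a) eA eB (s a) (x a) (y a) := by
  have h1 := c_own ha hs hx
  have h2 := c_own ha hs hy
  exact c_and (c_and (c_and (c_and (c_and (c_decide_lt hx hs) (c_decide_lt hy hs))
    (c_decide_eq (c_fst h1) (c_fst h2))) (c_ent hA hB hs (c_div (c_snd h1) (c_const 2))))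
    (c_ent hA hB hs (c_div (c_snd h2) (c_const 2))))
    (c_xor (c_clr hA hB ha hs hx) (c_clr hA hB ha hs hy))

theorem c_tree (hA : Computable fun q : ℕ × ℕ => eA q.1 q.2)
    (hB : Computable fun q : ℕ × ℕ => eB q.1 q.2) {act : ℕ → ℕ × ℕ} (ha : Computable act) :
    Computable fun σ => tree act eA eB σ := by
  refine c_allb (by fun_prop) (c_allb (by fun_prop) (c_allb (by fun_prop) (c_or (c_not ?_) ?_)))
  · exact c_edge hA hB (act := fun _ => act) (ha.comp Computable.snd) (by fun_prop) (by fun_prop)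
      (by fun_prop)
  · fun_prop

theorem c_ver {act : α → ℕ → ℕ × ℕ} {e s : α → ℕ}
    (ha : Computable fun q : α × ℕ => act q.1 q.2) (he : Computable e) (hs : Computable s) :
    Computable fun a => ver (act a) (e a) (s a) :=
  c_lastp (c_decide_lt (c_fst ha) (he.comp Computable.fst)) hs

theorem c_run {act : α → ℕ → ℕ × ℕ} {e k s : α → ℕ}
    (ha : Computable fun q : α × ℕ => act q.1 q.2) (he : Computable e) (hk : Computable k)
    (hs : Computable s) : Computable fun a => run (act a) (e a) (k a) (s a) :=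
  c_lastp (c_or (c_decide_lt (c_fst ha) (he.comp Computable.fst))
    (c_and (c_decide_eq (c_fst ha) (he.comp Computable.fst))
      (c_not (c_decide_eq (c_snd ha) (hk.comp Computable.fst))))) hs

theorem c_kk (hA : Computable fun q : ℕ × ℕ => eA q.1 q.2)
    (hB : Computable fun q : ℕ × ℕ => eB q.1 q.2) {act : α → ℕ → ℕ × ℕ}
    {g : α → ℕ × ℕ × ℕ × ℕ → ℕ → Bool} {e s : α → ℕ}
    (ha : Computable fun q : α × ℕ => act q.1 q.2)
    (hg : Computable fun q : α × (ℕ × ℕ × ℕ × ℕ) × ℕ => g q.1 q.2.1 q.2.2)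
    (he : Computable e) (hs : Computable s) :
    Computable fun a => kk (act a) eA eB (g a) (e a) (s a) := by
  have h1 : Computable fun p : α × ℕ => s p.1 := hs.comp Computable.fst
  have h2 : Computable fun p : α × ℕ => e p.1 := he.comp Computable.fst
  have h3 : Computable fun p : α × ℕ => ver (act p.1) (e p.1) (s p.1) :=
    (c_ver ha he hs).comp Computable.fst
  exact c_mub hs (c_and (c_not (c_ent hA hB h1 (by fun_prop)))
    (c_not (hg.comp (c_mk Computable.fst
      (c_mk (c_mk (c_const 1) (c_mk h2 (c_mk h3 Computable.snd))) h1)))))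

theorem c_want (hA : Computable fun q : ℕ × ℕ => eA q.1 q.2)
    (hB : Computable fun q : ℕ × ℕ => eB q.1 q.2) {act : α → ℕ → ℕ × ℕ}
    {g : α → ℕ × ℕ × ℕ × ℕ → ℕ → Bool} {e s : α → ℕ}
    (ha : Computable fun q : α × ℕ => act q.1 q.2)
    (hg : Computable fun q : α × (ℕ × ℕ × ℕ × ℕ) × ℕ => g q.1 q.2.1 q.2.2)
    (he : Computable e) (hs : Computable s) :
    Computable fun a => want (act a) eA eB (g a) (e a) (s a) := by
  have h1 := c_kk hA hB ha hg he hs
  have h2 := c_run ha he h1 hs
  exact c_and (c_and (c_not (hg.comp (c_mk Computable.id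
      (c_mk (c_mk (c_const 2) (c_mk he (c_const (0, 0)))) hs)))) (c_decide_lt h1 hs))
    (hg.comp (c_mk Computable.id
      (c_mk (c_mk (c_const 0) (c_mk he (c_mk h2 (c_const 0)))) hs)))

theorem c_nxt (hA : Computable fun q : ℕ × ℕ => eA q.1 q.2)
    (hB : Computable fun q : ℕ × ℕ => eB q.1 q.2) {act : α → ℕ → ℕ × ℕ}
    {g : α → ℕ × ℕ × ℕ × ℕ → ℕ → Bool} {s : α → ℕ}
    (ha : Computable fun q : α × ℕ => act q.1 q.2)
    (hg : Computable fun q : α × (ℕ × ℕ × ℕ × ℕ) × ℕ => g q.1 q.2.1 q.2.2)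
    (hs : Computable s) : Computable fun a => nxt (act a) eA eB (g a) (s a) := by
  have h1 : Computable fun a => mub (s a) fun e => want (act a) eA eB (g a) e (s a) :=
    c_mub hs (c_want hA hB (act := fun p : α × ℕ => act p.1) (g := fun p : α × ℕ => g p.1)
      (c_app ha (by fun_prop) (by fun_prop))
      (hg.comp (g := fun q : (α × ℕ) × (ℕ × ℕ × ℕ × ℕ) × ℕ => (q.1.1, q.2)) (by fun_prop))
      Computable.snd (hs.comp Computable.fst))
  exact c_mk h1 (c_kk hA hB ha hg h1 hs)

end Comp

/-- the total guess read off from a code -/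
def gh (c : Code) (q : ℕ × ℕ × ℕ × ℕ) (s : ℕ) : Bool :=
  decide (Code.evaln s c (Nat.pair (encode q)
    (lastp (fun t => (Code.evaln s c (Nat.pair (encode q) t)).isSome) s - 1)) = some 1)

theorem c_gh : Computable fun q : Code × (ℕ × ℕ × ℕ × ℕ) × ℕ => gh q.1 q.2.1 q.2.2 := by
  have h0 : Computable fun q : Code × (ℕ × ℕ × ℕ × ℕ) × ℕ => encode q.2.1 :=
    c_encode (Computable.fst.comp Computable.snd)
  have h2 : Computable fun q : Code × (ℕ × ℕ × ℕ × ℕ) × ℕ => q.2.2 :=
    Computable.snd.comp Computable.snd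
  have h1 : Computable fun z : (Code × (ℕ × ℕ × ℕ × ℕ) × ℕ) × ℕ =>
      Code.evaln z.1.2.2 z.1.1 (Nat.pair (encode z.1.2.1) z.2) :=
    c_evaln (h2.comp Computable.fst) (Computable.fst.comp Computable.fst)
      (c_pair (h0.comp Computable.fst) Computable.snd)
  have h3 := c_lastp (p := fun (q : Code × (ℕ × ℕ × ℕ × ℕ) × ℕ) t =>
    (Code.evaln q.2.2 q.1 (Nat.pair (encode q.2.1) t)).isSome) (c_isSome h1) h2
  have h4 := c_evaln h2 Computable.fst (c_pair h0 (c_sub h3 (c_const 1)))
  exact c_decide_eq h4 (c_const (some 1))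

theorem lastp_ge {p : ℕ → Bool} {t s : ℕ} (h : p t = true) (hs : t < s) :
    t ≤ lastp p s - 1 ∧ p (lastp p s - 1) = true := by
  induction s, hs using Nat.le_induction with
  | base => simp [lastp_succ, h]
  | succ s hs ih =>
    rw [lastp_succ]
    cases hp : p s
    · exact ih
    · simp only [cond_true, Nat.add_sub_cancel, hp, and_true]
      omega

theorem gh_lim {c : Code} {q : ℕ × ℕ × ℕ × ℕ} {v : ℕ → Bool} {P : Prop}
    (hc : ∀ t, c.eval (Nat.pair (encode q) t) = Part.some (v t).toNat) (hv : Lim v P) :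
    Lim (gh c q) P := by
  obtain ⟨s0, hs0⟩ := hv
  obtain ⟨u, hu⟩ := Code.evaln_complete.1
    (show (v s0).toNat ∈ c.eval (Nat.pair (encode q) s0) by rw [hc]; exact Part.mem_some _)
  refine ⟨u + s0 + 1, fun s hs => ?_⟩
  have h1 := Code.evaln_mono (show u ≤ s by omega) hu
  obtain ⟨h2, h3⟩ := lastp_ge (p := fun t => (Code.evaln s c (Nat.pair (encode q) t)).isSome)
    (t := s0) (s := s) (by rw [Option.mem_def.1 h1]; rfl) (by omega)
  obtain ⟨w, hw⟩ := Option.isSome_iff_exists.1 h3
  have h4 := Code.evaln_sound (Option.mem_def.2 hw)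
  rw [hc, Part.mem_some_iff] at h4
  rw [← hs0 _ h2, gh, hw, h4]
  cases v (lastp (fun t => (Code.evaln s c (Nat.pair (encode q) t)).isSome) s - 1) <;> simp

/-- the list of the first actions -/
def acts (eA eB : ℕ → ℕ → Bool) (c : Code) (s : ℕ) : List (ℕ × ℕ) :=
  Nat.rec (motive := fun _ => List (ℕ × ℕ)) []
    (fun t L => L ++ [nxt (fun i => L.getD i (0, 0)) eA eB (gh c) t]) s

/-- the action at stage `s` -/
def actc (eA eB : ℕ → ℕ → Bool) (c : Code) (s : ℕ) : ℕ × ℕ := (acts eA eB c (s + 1)).getD s (0, 0)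

theorem acts_succ (eA eB : ℕ → ℕ → Bool) (c : Code) (s : ℕ) : acts eA eB c (s + 1) =
    acts eA eB c s ++ [nxt (fun i => (acts eA eB c s).getD i (0, 0)) eA eB (gh c) s] := rfl

theorem acts_length (eA eB : ℕ → ℕ → Bool) (c : Code) (s : ℕ) : (acts eA eB c s).length = s := by
  induction s with
  | zero => rfl
  | succ s ih => rw [acts_succ, List.length_append, ih]; rfl

theorem acts_getD (eA eB : ℕ → ℕ → Bool) (c : Code) {i s : ℕ} (h : i < s) :
    (acts eA eB c s).getD i (0, 0) = actc eA eB c i := by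
  induction s, h using Nat.le_induction with
  | base => rfl
  | succ s hs ih =>
    rw [acts_succ, List.getD_append _ _ _ _ (by rw [acts_length]; omega), ih]

theorem actc_eq (eA eB : ℕ → ℕ → Bool) (c : Code) (s : ℕ) :
    actc eA eB c s = nxt (actc eA eB c) eA eB (gh c) s := by
  rw [← nxt_congr eA eB (gh c) (act := fun i => (acts eA eB c s).getD i (0, 0))
    fun t ht => acts_getD eA eB c ht]
  rw [actc, acts_succ, List.getD_append_right _ _ _ _ (by rw [acts_length]), acts_length]
  simp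

theorem c_actc {eA eB : ℕ → ℕ → Bool} (hA : Computable fun q : ℕ × ℕ => eA q.1 q.2)
    (hB : Computable fun q : ℕ × ℕ => eB q.1 q.2) :
    Computable fun q : Code × ℕ => actc eA eB q.1 q.2 := by
  have h0 : Computable fun p : (Code × ℕ) × ℕ × List (ℕ × ℕ) =>
      nxt (fun i => p.2.2.getD i (0, 0)) eA eB (gh p.1.1) p.2.1 :=
    c_nxt hA hB (act := fun (p : (Code × ℕ) × ℕ × List (ℕ × ℕ)) i => p.2.2.getD i (0, 0))
      (g := fun p => gh p.1.1)
      (c_getD (Computable.snd.comp (Computable.snd.comp Computable.fst)) Computable.snd (c_const _))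
      (c_gh.comp (g := fun q : ((Code × ℕ) × ℕ × List (ℕ × ℕ)) × (ℕ × ℕ × ℕ × ℕ) × ℕ =>
        (q.1.1.1, q.2)) (c_mk (Computable.fst.comp (Computable.fst.comp Computable.fst))
          Computable.snd)) (Computable.fst.comp Computable.snd)
  have h1 : Computable fun q : Code × ℕ => acts eA eB q.1 (q.2 + 1) :=
    c_natrec (f := fun q : Code × ℕ => q.2 + 1) (g := fun _ => [])
      (h := fun (a : Code × ℕ) t (L : List (ℕ × ℕ)) =>
        L ++ [nxt (fun i => L.getD i (0, 0)) eA eB (gh a.1) t])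
      (c_add Computable.snd (c_const 1)) (c_const _)
      (c_append (Computable.snd.comp Computable.snd) (c_cons h0 (c_const _)))
  exact c_getD h1 Computable.snd (c_const _)

end Pool.Agent.FS.LowPA
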