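import Pool.Agent.Lib.MP_aa609a_lc.Build

/-! The combinatorial core of the finite injury construction against a low oracle. -/

namespace Pool.Agent.FS.LowPA

open Pool.Agent.Lib.MP_aa609a_lc

/-- one plus the last `t < s` with `p t` -/
def lastp (p : ℕ → Bool) (s : ℕ) : ℕ :=
  Nat.rec (motive := fun _ => ℕ) 0 (fun t r => cond (p t) (t + 1) r) s

theorem lastp_succ (p : ℕ → Bool) (s : ℕ) :
    lastp p (s + 1) = cond (p s) (s + 1) (lastp p s) := rfl

theorem lastp_congr {p q : ℕ → Bool} {s : ℕ} (h : ∀ t < s, p t = q t) : lastp p s = lastp q s := by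
  induction s with
  | zero => rfl
  | succ s ih =>
    rw [lastp_succ, lastp_succ, h s (by omega), ih fun t ht => h t (by omega)]

theorem lastp_stable {p : ℕ → Bool} (h : ∃ a, ∀ t, a ≤ t → p t = false) :
    ∃ a, (∀ t, a ≤ t → p t = false) ∧ ∀ s, a ≤ s → lastp p s = a := by
  classical
  refine ⟨Nat.find h, Nat.find_spec h, ?_⟩
  intro s hs
  induction s, hs using Nat.le_induction with
  | base =>
    rcases Nat.eq_zero_or_pos (Nat.find h) with h0 | h0
    · rw [h0]; rfl
    · obtain ⟨m, hm⟩ : ∃ m, Nat.find h = m + 1 := ⟨Nat.find h - 1, by omega⟩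
      have h1 := Nat.find_min h (m := m) (by omega)
      have h2 : p m = true := by
        by_contra h3
        apply h1
        intro t ht
        rcases Nat.eq_or_lt_of_le ht with rfl | h4
        · simpa using h3
        · exact Nat.find_spec h t (by omega)
      rw [hm, lastp_succ, h2]; rfl
  | succ s hs ih => rw [lastp_succ, Nat.find_spec h s hs, ih]; rfl

/-- the task that owns the point `x` at stage `s` -/
def own (act : ℕ → ℕ × ℕ) (s x : ℕ) : ℕ × ℕ :=
  Nat.rec (motive := fun _ => ℕ × ℕ) (0, 0)
    (fun t r => cond (decide (x < t) && decide (r.1 ≤ (act t).1)) r (act t)) s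

theorem own_succ (act : ℕ → ℕ × ℕ) (s x : ℕ) : own act (s + 1) x =
    cond (decide (x < s) && decide ((own act s x).1 ≤ (act s).1)) (own act s x) (act s) := rfl

/-- the level has entered one of the two sets -/
def ent (eA eB : ℕ → ℕ → Bool) (s n : ℕ) : Bool := eA s n || eB s n

/-- the colour of `x` changes at stage `s` -/
def flp (act : ℕ → ℕ × ℕ) (eA eB : ℕ → ℕ → Bool) (s x : ℕ) : Bool :=
  decide ((own act s x).2 % 2 = 1) && eB (s + 1) ((own act s x).2 / 2) &&
    !(ent eA eB s ((own act s x).2 / 2))

/-- the colouring at stage `s` -/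
def clr (act : ℕ → ℕ × ℕ) (eA eB : ℕ → ℕ → Bool) (s x : ℕ) : Bool :=
  Nat.rec (motive := fun _ => Bool) false (fun t r => xor r (flp act eA eB t x)) s

theorem clr_succ (act : ℕ → ℕ × ℕ) (eA eB : ℕ → ℕ → Bool) (s x : ℕ) :
    clr act eA eB (s + 1) x = xor (clr act eA eB s x) (flp act eA eB s x) := rfl

/-- an inequality edge found at stage `t` -/
def edge (act : ℕ → ℕ × ℕ) (eA eB : ℕ → ℕ → Bool) (t x y : ℕ) : Bool :=
  decide (x < t) && decide (y < t) && decide ((own act t x).1 = (own act t y).1) &&
    ent eA eB t ((own act t x).2 / 2) && ent eA eB t ((own act t y).2 / 2) &&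
    xor (clr act eA eB t x) (clr act eA eB t y)

/-- the tree -/
def tree (act : ℕ → ℕ × ℕ) (eA eB : ℕ → ℕ → Bool) (σ : List Bool) : Bool :=
  allb (σ.length + 1) fun t => allb t fun x => allb t fun y =>
    !(edge act eA eB t x y) || xor (σ.getD x false) (σ.getD y false)

section Inv

variable {act : ℕ → ℕ × ℕ} {eA eB : ℕ → ℕ → Bool}

theorem edge_inv (hm : ∀ s n, ent eA eB s n = true → ent eA eB (s + 1) n = true) {t x y : ℕ}
    (h : edge act eA eB t x y = true) (s : ℕ) (hs : t ≤ s) :
    (own act s x).1 = (own act s y).1 ∧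
      (own act s x = own act s y ∨ (ent eA eB s ((own act s x).2 / 2) = true ∧
        ent eA eB s ((own act s y).2 / 2) = true)) ∧
      clr act eA eB s x ≠ clr act eA eB s y := by
  simp only [edge, Bool.and_eq_true, decide_eq_true_eq] at h
  obtain ⟨⟨⟨⟨⟨hx, hy⟩, h1⟩, h2⟩, h3⟩, h4⟩ := h
  induction s, hs using Nat.le_induction with
  | base =>
    refine ⟨h1, Or.inr ⟨h2, h3⟩, ?_⟩
    intro h5
    rw [h5] at h4
    simp at h4
  | succ s hs ih =>
    obtain ⟨i1, i2, i3⟩ := ih
    have hf : flp act eA eB s x = flp act eA eB s y := by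
      rcases i2 with i2 | ⟨i2, i4⟩
      · simp only [flp, i2]
      · simp [flp, i2, i4]
    have hxs : x < s := by omega
    have hys : y < s := by omega
    refine ⟨?_, ?_, ?_⟩
    · rw [own_succ, own_succ, ← i1]
      by_cases hc : (own act s x).1 ≤ (act s).1
      · simp only [hc, hxs, hys, decide_true, Bool.and_self, cond_true]
        exact i1
      · simp [hc]
    · rw [own_succ, own_succ, ← i1]
      by_cases hc : (own act s x).1 ≤ (act s).1
      · simp only [hc, hxs, hys, decide_true, Bool.and_self, cond_true]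
        rcases i2 with i2 | ⟨i2, i4⟩
        · exact Or.inl i2
        · exact Or.inr ⟨hm _ _ i2, hm _ _ i4⟩
      · simp [hc]
    · rw [clr_succ, clr_succ, hf]
      revert i3
      cases clr act eA eB s x <;> cases clr act eA eB s y <;> cases flp act eA eB s y <;> simp

theorem tree_iff {σ : List Bool} : tree act eA eB σ = true ↔
    ∀ t ≤ σ.length, ∀ x < t, ∀ y < t, edge act eA eB t x y = true →
      σ.getD x false ≠ σ.getD y false := by
  simp only [tree, allb_iff, Nat.lt_succ_iff]
  refine forall₂_congr fun t _ => forall₂_congr fun x _ => forall₂_congr fun y _ => ?_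
  cases edge act eA eB t x y <;> cases σ.getD x false <;> cases σ.getD y false <;> simp

theorem tree_prefix (σ τ : List Bool) (h : σ <+: τ) (hτ : tree act eA eB τ = true) :
    tree act eA eB σ = true := by
  rw [tree_iff] at hτ ⊢
  obtain ⟨ρ, rfl⟩ := h
  intro t ht x hx y hy he
  have := hτ t (by simp; omega) x hx y hy he
  rwa [List.getD_append _ _ _ _ (by omega), List.getD_append _ _ _ _ (by omega)] at this

theorem tree_infinite (hm : ∀ s n, ent eA eB s n = true → ent eA eB (s + 1) n = true) :
    {σ | tree act eA eB σ = true}.Infinite := by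
  refine Set.infinite_of_injective_forall_mem
    (f := fun s : ℕ => (List.range s).map (clr act eA eB s)) ?_ ?_
  · intro a b h
    simpa using congrArg List.length h
  · intro s
    show tree act eA eB _ = true
    rw [tree_iff]
    intro t ht x hx y hy he
    have hl : t ≤ s := by simpa using ht
    have h1 := (edge_inv hm he s hl).2.2
    have hx' : x < s := by omega
    have hy' : y < s := by omega
    simpa [List.getD_eq_getElem?_getD, hx', hy'] using h1

theorem not_sol_of_edge {G : Set ℕ} {t x y : ℕ} (he : edge act eA eB t x y = true) (hx : x ∈ G)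
    (hy : y ∈ G) : ¬ Sol (fun σ => tree act eA eB σ = true) G := by
  rintro ⟨-, h⟩
  apply h
  refine (List.finite_length_lt Bool t).subset ?_
  rintro σ ⟨h1, c, hc⟩
  by_contra hl
  have hl' : t ≤ σ.length := by simpa using hl
  have he' := he
  simp only [edge, Bool.and_eq_true, decide_eq_true_eq] at he'
  obtain ⟨⟨⟨⟨⟨hxt, hyt⟩, -⟩, -⟩, -⟩, -⟩ := he'
  have h2 := tree_iff.1 h1 t hl' x hxt y hyt he
  have hx' : x < σ.length := by omega
  have hy' : y < σ.length := by omega
  have e1 := hc x hx σ[x] (by simp [hx'])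
  have e2 := hc y hy σ[y] (by simp [hy'])
  apply h2
  simp [List.getD_eq_getElem?_getD, hx', hy', e1, e2]

/-- after the last injury the owner of a point is kept -/
theorem own_keep {e k a x s : ℕ} (ha : ∀ t, a ≤ t → e ≤ (act t).1) (hx : a ≤ x) (hs : x < s)
    (h : own act s x = (e, k)) (u : ℕ) (hu : s ≤ u) : own act u x = (e, k) := by
  induction u, hu using Nat.le_induction with
  | base => exact h
  | succ u hu ih =>
    have h1 := ha u (by omega)
    have h2 : x < u := by omega
    rw [own_succ, ih]
    simp [h1, h2]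

/-- a wrong answer is killed -/
theorem kill_of_wrong (hA : ∀ s n, eA s n = true → eA (s + 1) n = true)
    (hB : ∀ s n, eB s n = true → eB (s + 1) n = true)
    {e n a x y s : ℕ} (ha : ∀ t, a ≤ t → e ≤ (act t).1) (hx : a ≤ x) (hy : a ≤ y) (hxs : x < s)
    (hys : y < s) (ox : own act s x = (e, 2 * n)) (oy : own act s y = (e, 2 * n + 1))
    (hn : ent eA eB s n = false) (u : ℕ) (hu : ent eA eB u n = true) :
    ∃ t, ent eA eB (t + 1) n = true ∧
      (xor (xor (clr act eA eB s x) (clr act eA eB s y)) (eB (t + 1) n) = true →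
        edge act eA eB (t + 1) x y = true) := by
  classical
  have hm : ∀ s n, ent eA eB s n = true → ent eA eB (s + 1) n = true := by
    intro s n h
    simp only [ent, Bool.or_eq_true] at h ⊢
    exact h.imp (hA s n) (hB s n)
  have hmm : ∀ s v n, s ≤ v → ent eA eB s n = true → ent eA eB v n = true := by
    intro s v n hv h
    induction v, hv using Nat.le_induction with
    | base => exact h
    | succ v _ ih => exact hm _ _ ih
  have hex : ∃ u, ent eA eB u n = true := ⟨u, hu⟩
  have hlt : s < Nat.find hex := by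
    by_contra h
    have := hmm _ s n (by omega) (Nat.find_spec hex)
    rw [hn] at this
    cases this
  obtain ⟨t, ht⟩ : ∃ t, Nat.find hex = t + 1 := ⟨Nat.find hex - 1, by omega⟩
  have e1 : ent eA eB (t + 1) n = true := ht ▸ Nat.find_spec hex
  have e0 : ∀ v ≤ t, ent eA eB v n = false := fun v hv => by
    simpa using Nat.find_min hex (m := v) (by omega)
  have d1 : 2 * n / 2 = n := by omega
  have d2 : (2 * n + 1) / 2 = n := by omega
  have d4 : (2 * n + 1) % 2 = 1 := by omega
  have kx := own_keep ha hx hxs ox
  have ky := own_keep ha hy hys oy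
  have hc : ∀ v, s ≤ v → v ≤ t →
      clr act eA eB v x = clr act eA eB s x ∧ clr act eA eB v y = clr act eA eB s y := by
    intro v hv
    induction v, hv using Nat.le_induction with
    | base => exact fun _ => ⟨rfl, rfl⟩
    | succ v hv ih =>
      intro hvt
      obtain ⟨i1, i2⟩ := ih (by omega)
      have b1 : eB (v + 1) n = false := by
        have := e0 (v + 1) hvt
        simp only [ent, Bool.or_eq_false_iff] at this
        exact this.2
      rw [clr_succ, clr_succ, i1, i2]
      simp [flp, kx v hv, ky v hv, d1, d2, b1]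
  obtain ⟨c1, c2⟩ := hc t (by omega) le_rfl
  refine ⟨t, e1, fun hw => ?_⟩
  have hxt : x < t + 1 := by omega
  have hyt : y < t + 1 := by omega
  have f1 : flp act eA eB t x = false := by simp [flp, kx t (by omega)]
  have f2 : flp act eA eB t y = eB (t + 1) n := by
    simp [flp, ky t (by omega), d2, d4, e0 t le_rfl]
  simp only [edge, kx (t + 1) (by omega), ky (t + 1) (by omega), d1, d2, e1, hxt, hyt, clr_succ,
    c1, c2, f1, f2, decide_true, Bool.and_self, Bool.true_and]
  revert hw
  cases clr act eA eB s x <;> cases clr act eA eB s y <;> cases eB (t + 1) n <;> simp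

end Inv

end Pool.Agent.FS.LowPA
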