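import Pool.Agent.FS.LowPA.Main
import Pool.Agent.FS.LowPA.BridgeA
import Pool.Agent.FS.LowPA.BridgeB

/-! The construction against a uniformly low family. -/

namespace Pool.Agent.FS.LowPA

open Pool.Agent.Shared.Oracle Pool.Agent.Shared.Oracle.FP Pool.Agent.Lib.MP_aa609a_lc
open Encodable Nat.Partrec

/-- the set enumerated by an operator from a member of the family -/
def genF (D : ℕ → ℕ → Bool) (e : ℕ) : Set ℕ := gen (D e.unpair.1) e.unpair.2

theorem exists_code_lim_fam {eA eB : ℕ → ℕ → Bool} (hA : Computable fun q : ℕ × ℕ => eA q.1 q.2)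
    (hB : Computable fun q : ℕ × ℕ => eB q.1 q.2) (D : ℕ → ℕ → Bool)
    (hlow : ∀ W : List Bool × ℕ → Prop, REPred W → ∃ g : ℕ × ℕ → ℕ → Bool, Computable₂ g ∧
      ∀ i x, ∃ s0, ∀ s, s0 ≤ s → (g (i, x) s = true ↔ x ∈ Out W (D i))) :
    ∃ c : Code, ∀ q, Lim (gh c q)
      (∃ t x y, rel eA eB c q t x y = true ∧ x ∈ genF D q.2.1 ∧ y ∈ genF D q.2.1) := by
  have p1 : Computable fun z : ℕ × (Code × ℕ × ℕ × ℕ × ℕ) × ℕ × ℕ × ℕ => z.2.1 :=
    Computable.fst.comp Computable.snd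
  have pc := c_fst p1
  have pq := c_snd p1
  have p2 : Computable fun z : ℕ × (Code × ℕ × ℕ × ℕ × ℕ) × ℕ × ℕ × ℕ => z.2.2 :=
    Computable.snd.comp Computable.snd
  have pt := c_fst p2
  have px := c_fst (c_snd p2)
  have py := c_snd (c_snd p2)
  have ha : Computable fun w : (ℕ × (Code × ℕ × ℕ × ℕ × ℕ) × ℕ × ℕ × ℕ) × ℕ =>
      actc eA eB w.1.2.1.1 w.2 := c_app (c_actc hA hB) (pc.comp Computable.fst) Computable.snd
  have h1 := c_own (act := fun z : ℕ × (Code × ℕ × ℕ × ℕ × ℕ) × ℕ × ℕ × ℕ => actc eA eB z.2.1.1)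
    ha pt px
  have h2 := c_edge hA hB
    (act := fun z : ℕ × (Code × ℕ × ℕ × ℕ × ℕ) × ℕ × ℕ × ℕ => actc eA eB z.2.1.1) ha pt px py
  have h3 : Computable fun z : ℕ × (Code × ℕ × ℕ × ℕ × ℕ) × ℕ × ℕ × ℕ =>
      decide (z.2.1.2.2.2.1 ≤ z.2.2.2.1) := c_decide_le (c_fst (c_snd (c_snd pq))) px
  have h4 : Computable fun z : ℕ × (Code × ℕ × ℕ × ℕ × ℕ) × ℕ × ℕ × ℕ =>
      rel eA eB z.2.1.1 z.2.1.2 z.2.2.1 z.2.2.2.1 z.2.2.2.2 :=
    c_cond (c_decide_eq (c_fst pq) (c_const 0)) h3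
      (c_cond (c_decide_eq (c_fst pq) (c_const 1)) (c_and (c_and h3 (c_decide_lt px pt))
        (c_decide_eq h1 (c_mk (c_fst (c_snd pq)) (c_snd (c_snd (c_snd pq)))))) h2)
  have h5 : Computable fun z : ℕ × (Code × ℕ × ℕ × ℕ × ℕ) × ℕ × ℕ × ℕ =>
      decide (z.1 = Nat.pair (encode z.2.1.1) (encode z.2.1.2)) :=
    c_decide_eq Computable.fst (c_pair (c_encode_code pc) (c_encode pq))
  obtain ⟨W, hW, hW'⟩ := re_pairs (β := (Code × ℕ × ℕ × ℕ × ℕ) × ℕ × ℕ × ℕ)
    (R := fun n b => decide (n = Nat.pair (encode b.1.1) (encode b.1.2)) &&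
      rel eA eB b.1.1 b.1.2 b.2.1 b.2.2.1 b.2.2.2)
    (e := fun b => b.1.2.2.1.unpair.2) (x := fun b => b.2.2.1) (y := fun b => b.2.2.2) (c_and h5 h4)
    (c_snd (c_unpair (c_fst (c_snd (c_snd Computable.fst))))) (c_fst (c_snd Computable.snd))
    (c_snd (c_snd Computable.snd))
  obtain ⟨g, hg, hg'⟩ := hlow W hW
  have hm : Computable fun z : Code × ℕ => z.2.unpair.1 := c_fst (c_unpair Computable.snd)
  have hf : Computable fun z : Code × ℕ =>
      (g (z.2.unpair.1.unpair.2.unpair.1.unpair.1, Nat.pair (encode z.1) z.2.unpair.1)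
        z.2.unpair.2).toNat :=
    c_toNat (hg.comp (c_mk (c_fst (c_unpair (c_fst (c_unpair (c_snd (c_unpair hm))))))
      (c_pair (c_encode_code Computable.fst) hm)) (c_snd (c_unpair Computable.snd)))
  obtain ⟨c, hc⟩ := Code.fixed_point₂ (f := fun c m =>
    Part.some (g (m.unpair.1.unpair.2.unpair.1.unpair.1, Nat.pair (encode c) m.unpair.1)
      m.unpair.2).toNat) hf
  refine ⟨c, fun q => gh_lim (v := g (q.2.1.unpair.1, Nat.pair (encode c) (encode q)))
    (fun t => ?_) ?_⟩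
  · have h6 : (encode q).unpair.2.unpair.1 = q.2.1 := by
      obtain ⟨q1, q2, q3⟩ := q
      simp only [encode_prod_val, Nat.unpair_pair, encode_nat]
    rw [hc]
    simp only [Nat.unpair_pair, h6]
  · obtain ⟨s0, hs0⟩ := hg' q.2.1.unpair.1 (Nat.pair (encode c) (encode q))
    refine ⟨s0, fun s hs => ?_⟩
    rw [hs0 s hs, hW']
    constructor
    · rintro ⟨⟨⟨c', q'⟩, t, x, y⟩, h, hx, hy⟩
      simp only [Bool.and_eq_true, decide_eq_true_eq, Nat.pair_eq_pair, encode_inj] at h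
      obtain ⟨⟨rfl, rfl⟩, h⟩ := h
      exact ⟨t, x, y, h, hx, hy⟩
    · rintro ⟨t, x, y, h, hx, hy⟩
      exact ⟨((c, q), t, x, y), by simp [h], hx, hy⟩

theorem main_fam (D : ℕ → ℕ → Bool)
    (hlow : ∀ W : List Bool × ℕ → Prop, REPred W → ∃ g : ℕ × ℕ → ℕ → Bool, Computable₂ g ∧
      ∀ i x, ∃ s0, ∀ s, s0 ≤ s → (g (i, x) s = true ↔ x ∈ Out W (D i)))
    (hb : ∀ Y, IsInst Y → ∃ i W, REPred W ∧ Sol Y (Out W (D i)))
    (A B : ℕ → Prop) (hA : REPred A) (hB : REPred B) (hAB : ∀ n, A n → ¬ B n) :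
    ∃ (i : ℕ) (W0 W1 : List Bool × ℕ → Prop), REPred W0 ∧ REPred W1 ∧
      (∀ n, n ∈ Out W0 (D i) ∨ n ∈ Out W1 (D i)) ∧
      (∀ n, B n → n ∉ Out W0 (D i)) ∧ ∀ n, A n → n ∉ Out W1 (D i) := by
  classical
  by_contra hno
  obtain ⟨cA, hcA⟩ := re_code hA
  obtain ⟨cB, hcB⟩ := re_code hB
  obtain ⟨eA, heA⟩ : ∃ eA : ℕ → ℕ → Bool, eA = fun s n => (Code.evaln s cA (encode n)).isSome :=
    ⟨_, rfl⟩
  obtain ⟨eB, heB⟩ : ∃ eB : ℕ → ℕ → Bool, eB = fun s n => (Code.evaln s cB (encode n)).isSome :=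
    ⟨_, rfl⟩
  have kA : Computable fun q : ℕ × ℕ => eA q.1 q.2 := by
    rw [heA]
    exact c_isSome (c_evaln Computable.fst (c_const _) (c_encode Computable.snd))
  have kB : Computable fun q : ℕ × ℕ => eB q.1 q.2 := by
    rw [heB]
    exact c_isSome (c_evaln Computable.fst (c_const _) (c_encode Computable.snd))
  have mA : ∀ s n, eA s n = true → eA (s + 1) n = true := by
    rw [heA]
    exact fun s n h => isSome_mono (Nat.le_succ s) h
  have mB : ∀ s n, eB s n = true → eB (s + 1) n = true := by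
    rw [heB]
    exact fun s n h => isSome_mono (Nat.le_succ s) h
  have sA : ∀ n, A n ↔ ∃ s, eA s n = true := by
    rw [heA]
    exact hcA
  have sB : ∀ n, B n ↔ ∃ s, eB s n = true := by
    rw [heB]
    exact hcB
  have hm : ∀ s n, ent eA eB s n = true → ent eA eB (s + 1) n = true := by
    intro s n h
    simp only [ent, Bool.or_eq_true] at h ⊢
    exact h.imp (mA s n) (mB s n)
  obtain ⟨c, hc⟩ := exists_code_lim_fam kA kB D hlow
  have kact : Computable (actc eA eB c) :=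
    c_app (c_actc kA kB) (c_const c) Computable.id
  obtain ⟨i0, W, hW, hS⟩ := hb (fun σ => tree (actc eA eB c) eA eB σ = true)
    ⟨ComputablePred.computable_iff.2 ⟨_, c_tree kA kB kact, rfl⟩, tree_prefix, tree_infinite hm⟩
  obtain ⟨e0, he0⟩ := exists_gen hW
  refine verify (actc_eq eA eB c) hm (genF D) (fun e b => ?_) (fun e a k => ?_) (fun e => ?_)
    (fun e a ha hk => ?_) (Nat.pair i0 e0)
    (by rw [genF, Nat.unpair_pair, he0]; exact hS)
  · obtain ⟨s0, h⟩ := hc (0, e, b, 0)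
    refine ⟨s0, fun s hs => (h s hs).trans ⟨?_, ?_⟩⟩
    · rintro ⟨t, x, y, h1, h2, -⟩
      exact ⟨x, by simpa [rel] using h1, h2⟩
    · rintro ⟨x, h1, h2⟩
      exact ⟨0, x, x, by simpa [rel] using h1, h2, h2⟩
  · obtain ⟨s0, h⟩ := hc (1, e, a, k)
    refine ⟨s0, fun s hs => (h s hs).trans ⟨?_, ?_⟩⟩
    · rintro ⟨t, x, y, h1, h2, -⟩
      simp [rel] at h1
      exact ⟨x, t, h1.1.1, h1.1.2, h1.2, h2⟩
    · rintro ⟨x, t, h1, h2, h3, h4⟩
      exact ⟨t, x, x, by simp [rel, h1, h2, h3], h4, h4⟩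
  · obtain ⟨s0, h⟩ := hc (2, e, 0, 0)
    refine ⟨s0, fun s hs => (h s hs).trans ?_⟩
    simp [rel, Kill]
  · by_contra hall
    have hall' : ∀ k, (∀ s, ent eA eB s (k / 2) = false) → Met (actc eA eB c) (genF D e) e a k := by
      intro k h1
      by_contra h2
      exact hall ⟨k, h1, h2⟩
    have pn : Computable fun z : ℕ × ℕ × ℕ × ℕ => z.1 := Computable.fst
    have ps : Computable fun z : ℕ × ℕ × ℕ × ℕ => z.2.1 := c_fst Computable.snd
    have px : Computable fun z : ℕ × ℕ × ℕ × ℕ => z.2.2.1 := c_fst (c_snd Computable.snd)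
    have py : Computable fun z : ℕ × ℕ × ℕ × ℕ => z.2.2.2 := c_snd (c_snd Computable.snd)
    have ka : Computable fun w : (ℕ × ℕ × ℕ × ℕ) × ℕ => actc eA eB c w.2 :=
      kact.comp Computable.snd
    have ox := c_own (act := fun _ => actc eA eB c) ka ps px
    have oy := c_own (act := fun _ => actc eA eB c) ka ps py
    have cx := c_clr kA kB (act := fun _ => actc eA eB c) ka ps px
    have cy := c_clr kA kB (act := fun _ => actc eA eB c) ka ps py
    have hU : ∀ v : Bool, ∃ U, REPred U ∧ ∀ n, n ∈ Out U (D e.unpair.1) ↔ ∃ s x y, a ≤ x ∧ a ≤ y ∧ x < s ∧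
        y < s ∧ own (actc eA eB c) s x = (e, 2 * n) ∧ own (actc eA eB c) s y = (e, 2 * n + 1) ∧
        ent eA eB s n = false ∧
        xor (clr (actc eA eB c) eA eB s x) (clr (actc eA eB c) eA eB s y) = v ∧
        x ∈ genF D e ∧ y ∈ genF D e := by
      intro v
      obtain ⟨U, hU, hU'⟩ := re_pairs (β := ℕ × ℕ × ℕ)
        (R := fun n b => decide (a ≤ b.2.1) && decide (a ≤ b.2.2) && decide (b.2.1 < b.1) &&
          decide (b.2.2 < b.1) && decide (own (actc eA eB c) b.1 b.2.1 = (e, 2 * n)) &&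
          decide (own (actc eA eB c) b.1 b.2.2 = (e, 2 * n + 1)) && !(ent eA eB b.1 n) &&
          decide (xor (clr (actc eA eB c) eA eB b.1 b.2.1) (clr (actc eA eB c) eA eB b.1 b.2.2) = v))
        (e := fun _ => e.unpair.2) (x := fun b => b.2.1) (y := fun b => b.2.2)
        (c_and (c_and (c_and (c_and (c_and (c_and (c_and (c_decide_le (c_const a) px)
          (c_decide_le (c_const a) py)) (c_decide_lt px ps)) (c_decide_lt py ps))
          (c_decide_eq ox (c_mk (c_const e) (c_mul (c_const 2) pn))))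
          (c_decide_eq oy (c_mk (c_const e) (c_add (c_mul (c_const 2) pn) (c_const 1)))))
          (c_not (c_ent kA kB ps pn))) (c_decide_eq (c_xor cx cy) (c_const v)))
        (c_const _) (c_fst Computable.snd) (c_snd Computable.snd)
      refine ⟨U, hU, fun n => (hU' (D e.unpair.1) n).trans ⟨?_, ?_⟩⟩
      · rintro ⟨⟨s, x, y⟩, h, hx, hy⟩
        simp only [Bool.and_eq_true, decide_eq_true_eq, Bool.not_eq_true'] at h
        obtain ⟨⟨⟨⟨⟨⟨⟨h1, h2⟩, h3⟩, h4⟩, h5⟩, h6⟩, h7⟩, h8⟩ := h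
        exact ⟨s, x, y, h1, h2, h3, h4, h5, h6, h7, h8, hx, hy⟩
      · rintro ⟨s, x, y, h1, h2, h3, h4, h5, h6, h7, h8, hx, hy⟩
        refine ⟨(s, x, y), ?_, hx, hy⟩
        simp only [Bool.and_eq_true, decide_eq_true_eq, Bool.not_eq_true']
        exact ⟨⟨⟨⟨⟨⟨⟨h1, h2⟩, h3⟩, h4⟩, h5⟩, h6⟩, h7⟩, h8⟩
    obtain ⟨U0, hU0, hU0'⟩ := hU false
    obtain ⟨U1, hU1, hU1'⟩ := hU true
    apply hno
    refine ⟨e.unpair.1, fun p => A p.2 ∨ U0 p, fun p => B p.2 ∨ U1 p,
      re_or (re_comp hA Computable.snd) hU0, re_or (re_comp hB Computable.snd) hU1,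
      fun n => ?_, fun n hn => ?_, fun n hn => ?_⟩
    · by_cases hn : ∀ s, ent eA eB s n = false
      · obtain ⟨x, t, x1, x2, x3, x4⟩ := hall' (2 * n) (by rwa [show 2 * n / 2 = n by omega])
        obtain ⟨y, u, y1, y2, y3, y4⟩ :=
          hall' (2 * n + 1) (by rwa [show (2 * n + 1) / 2 = n by omega])
        have x5 := own_keep ha x1 x2 x3 (t + u) (by omega)
        have y5 := own_keep ha y1 y2 y3 (t + u) (by omega)
        cases hv : xor (clr (actc eA eB c) eA eB (t + u) x) (clr (actc eA eB c) eA eB (t + u) y)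
        · obtain ⟨k, hk'⟩ := (hU0' n).2
            ⟨t + u, x, y, x1, y1, by omega, by omega, x5, y5, hn _, hv, x4, y4⟩
          exact Or.inl ⟨k, Or.inr hk'⟩
        · obtain ⟨k, hk'⟩ := (hU1' n).2
            ⟨t + u, x, y, x1, y1, by omega, by omega, x5, y5, hn _, hv, x4, y4⟩
          exact Or.inr ⟨k, Or.inr hk'⟩
      · obtain ⟨s, hs⟩ := not_forall.1 hn
        have hs' : eA s n = true ∨ eB s n = true := by simpa [ent, or_iff_not_imp_left] using hs
        rcases hs' with h | h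
        · exact Or.inl ⟨0, Or.inl ((sA n).2 ⟨s, h⟩)⟩
        · exact Or.inr ⟨0, Or.inl ((sB n).2 ⟨s, h⟩)⟩
    · rintro ⟨k, h | h⟩
      · exact hAB n h hn
      · obtain ⟨s, x, y, h1, h2, h3, h4, h5, h6, h7, h8, hx, hy⟩ := (hU0' n).1 ⟨k, h⟩
        obtain ⟨u, hu⟩ := (sB n).1 hn
        obtain ⟨t, t1, t2⟩ := kill_of_wrong mA mB ha h1 h2 h3 h4 h5 h6 h7 u (by simp [ent, hu])
        have t3 : eA (t + 1) n = false := by
          simpa using fun h => hAB n ((sA n).2 ⟨_, h⟩) hn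
        have t4 : eB (t + 1) n = true := by simpa [ent, t3] using t1
        exact hk ⟨t + 1, x, y, t2 (by rw [h8, t4]; rfl), hx, hy⟩
    · rintro ⟨k, h | h⟩
      · exact hAB n hn h
      · obtain ⟨s, x, y, h1, h2, h3, h4, h5, h6, h7, h8, hx, hy⟩ := (hU1' n).1 ⟨k, h⟩
        obtain ⟨u, hu⟩ := (sA n).1 hn
        obtain ⟨t, t1, t2⟩ := kill_of_wrong mA mB ha h1 h2 h3 h4 h5 h6 h7 u (by simp [ent, hu])
        have t4 : eB (t + 1) n = false := by
          simpa using fun h => hAB n hn ((sB n).2 ⟨_, h⟩)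
        exact hk ⟨t + 1, x, y, t2 (by rw [h8, t4]; rfl), hx, hy⟩

/-- the computation with index `a` halts on `n` before the one with index `b` -/
def race (a b n s : ℕ) : Bool :=
  (Code.evaln s (Denumerable.ofNat Code a) n).isSome &&
    !(Code.evaln s (Denumerable.ofNat Code b) n).isSome

theorem c_race {α : Type} [Primcodable α] {a b n s : α → ℕ} (ha : Computable a)
    (hb : Computable b) (hn : Computable n) (hs : Computable s) :
    Computable fun x => race (a x) (b x) (n x) (s x) :=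
  c_and (c_isSome (c_evaln hs (c_ofNat ha) hn)) (c_not (c_isSome (c_evaln hs (c_ofNat hb) hn)))

theorem race_disj {a b n s t : ℕ} (h1 : race a b n s = true) (h2 : race b a n t = true) :
    False := by
  simp only [race, Bool.and_eq_true, Bool.not_eq_true'] at h1 h2
  rcases le_total s t with h | h
  · have := isSome_mono h h1.1
    rw [h2.2] at this
    cases this
  · have := isSome_mono h h2.1
    rw [h1.2] at this
    cases this

theorem family (D : ℕ → ℕ → Bool)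
    (hlow : ∀ W : List Bool × ℕ → Prop, REPred W → ∃ g : ℕ × ℕ → ℕ → Bool, Computable₂ g ∧
      ∀ i x, ∃ s0, ∀ s, s0 ≤ s → (g (i, x) s = true ↔ x ∈ Out W (D i)))
    (hb : ∀ Y : List Bool → Prop, IsInst Y → ∃ (i : ℕ) (G : ℕ → Bool), Sol Y {j | G j = true} ∧
      TuringReducible (fun n => Part.some (G n).toNat) (fun n => Part.some (D i n).toNat)) :
    ∃ i, ∀ A B : ℕ → Prop, REPred A → REPred B → (∀ n, A n → ¬ B n) → ∃ X : ℕ → Bool,
      TuringReducible (fun n => Part.some (X n).toNat) (fun n => Part.some (D i n).toNat) ∧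
      (∀ n, A n → X n = true) ∧ ∀ n, B n → X n = false := by
  have p1 : Computable fun z : ℕ × ℕ => z.1.unpair.1 := c_fst (c_unpair Computable.fst)
  have p0 : Computable fun z : ℕ × ℕ => z.1.unpair.2.unpair :=
    c_unpair (c_snd (c_unpair Computable.fst))
  have rA : REPred fun m : ℕ => ∃ s, race m.unpair.1 m.unpair.2.unpair.1 m.unpair.2.unpair.2 s = true :=
    re_exists (R := fun (m s : ℕ) => race m.unpair.1 m.unpair.2.unpair.1 m.unpair.2.unpair.2 s = true)
      (re_bool (c_race p1 (c_fst p0) (c_snd p0) Computable.snd))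
  have rB : REPred fun m : ℕ => ∃ s, race m.unpair.2.unpair.1 m.unpair.1 m.unpair.2.unpair.2 s = true :=
    re_exists (R := fun (m s : ℕ) => race m.unpair.2.unpair.1 m.unpair.1 m.unpair.2.unpair.2 s = true)
      (re_bool (c_race (c_fst p0) p1 (c_snd p0) Computable.snd))
  obtain ⟨i, W0, W1, h0, h1, hc, hB0, hA1⟩ := main_fam D hlow (fun Y hY => by
    obtain ⟨i, G, hG, hr⟩ := hb Y hY
    obtain ⟨W, hW, hW'⟩ := out_of_red (D i) G hr
    exact ⟨i, W, hW, hW' ▸ hG⟩) _ _ rA rB (fun n ⟨s, hs⟩ ⟨t, ht⟩ => race_disj hs ht)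
  obtain ⟨X, hX, hX'⟩ := red_of_cover (D i) W0 W1 h0 h1 hc
  refine ⟨i, fun A B hA hB hAB => ?_⟩
  obtain ⟨cA, hcA⟩ := re_code hA
  obtain ⟨cB, hcB⟩ := re_code hB
  have hX1 : ComputableIn {orc (D i)} X := orc_iff.1 hX
  have hp : Primrec fun n : ℕ => Nat.pair (encode cA) (Nat.pair (encode cB) n) :=
    Primrec₂.natPair.comp (Primrec.const _) (Primrec₂.natPair.comp (Primrec.const _) Primrec.id)
  have hX2 := cin_comp (f := X) (g := fun n : ℕ => Nat.pair (encode cA) (Nat.pair (encode cB) n))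
    hX1 hp.computableIn
  refine ⟨fun n => X (Nat.pair (encode cA) (Nat.pair (encode cB) n)), orc_iff.2 hX2,
    fun n hn => ?_, fun n hn => ?_⟩
  · obtain ⟨t, ht⟩ := (hcA n).1 hn
    have h2 : (Code.evaln t cB n).isSome = false := by
      simpa using fun h => hAB n hn ((hcB n).2 ⟨t, h⟩)
    have h3 : (Code.evaln t cA n).isSome = true := ht
    by_contra h
    refine hA1 _ ⟨t, ?_⟩ ((hX' _).2 (by simpa using h))
    simp only [race, Nat.unpair_pair, Denumerable.ofNat_encode, h2, h3]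
    rfl
  · obtain ⟨t, ht⟩ := (hcB n).1 hn
    have h2 : (Code.evaln t cA n).isSome = false := by
      simpa using fun h => hAB n ((hcA n).2 ⟨t, h⟩) hn
    have h3 : (Code.evaln t cB n).isSome = true := ht
    by_contra h
    refine hB0 _ ⟨t, ?_⟩ ((hX' _).1 (by simpa using h))
    simp only [race, Nat.unpair_pair, Denumerable.ofNat_encode, h2, h3]
    rfl

end Pool.Agent.FS.LowPA
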