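import Pool.Agent.FS.LowPA.Comp

/-! The recursion theorem closes the construction. -/

namespace Pool.Agent.FS.LowPA

open Pool.Agent.Shared.Oracle Pool.Agent.Shared.Oracle.FP Pool.Agent.Lib.MP_aa609a_lc
open Encodable Nat.Partrec

theorem re_code {α : Type} [Primcodable α] {p : α → Prop} (hp : REPred p) :
    ∃ c : Code, ∀ a, p a ↔ ∃ t, (Code.evaln t c (encode a)).isSome = true := by
  obtain ⟨c, hc⟩ := Code.exists_code.1 hp
  refine ⟨c, fun a => ?_⟩
  have h1 : p a ↔ ∃ x, x ∈ c.eval (encode a) := by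
    rw [hc]
    simp [Part.mem_assert_iff]
  rw [h1]
  simp only [Code.evaln_complete, Option.isSome_iff_exists, Option.mem_def]
  exact exists_comm

theorem isSome_mono {c : Code} {n s t : ℕ} (h : s ≤ t) (h1 : (Code.evaln s c n).isSome = true) :
    (Code.evaln t c n).isSome = true := by
  obtain ⟨w, hw⟩ := Option.isSome_iff_exists.1 h1
  rw [Option.mem_def.1 (Code.evaln_mono h (Option.mem_def.2 hw))]
  rfl

theorem re_bool {α : Type} [Primcodable α] {f : α → Bool} (hf : Computable f) :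
    REPred fun a => f a = true :=
  (ComputablePred.computable_iff.2 ⟨f, hf, rfl⟩).to_re

/-- the set enumerated from `D` by the operator with index `e` -/
def gen (D : ℕ → Bool) (e : ℕ) : Set ℕ :=
  {x | ∃ k t, (Code.evaln t (Denumerable.ofNat Code e) (encode (seg D k, x))).isSome = true}

/-- bounded version -/
def outb (u e : ℕ) (σ : List Bool) (x : ℕ) : Bool :=
  exb (σ.length + 1) fun i =>
    (Code.evaln u (Denumerable.ofNat Code e) (encode (σ.take i, x))).isSome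

theorem c_outb {α : Type} [Primcodable α] {u e x : α → ℕ} {σ : α → List Bool} (hu : Computable u)
    (he : Computable e) (hσ : Computable σ) (hx : Computable x) :
    Computable fun a => outb (u a) (e a) (σ a) (x a) :=
  c_exb (c_add (c_length hσ) (c_const 1)) (c_isSome (c_evaln (hu.comp Computable.fst)
    (c_ofNat (he.comp Computable.fst))
    (c_encode (c_mk (c_take Computable.snd (hσ.comp Computable.fst)) (hx.comp Computable.fst)))))

theorem gen_of_outb {D : ℕ → Bool} {u e k x : ℕ} (h : outb u e (seg D k) x = true) :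
    x ∈ gen D e := by
  obtain ⟨i, hi, h1⟩ := exb_iff.1 h
  rw [seg_take D (by simpa [Nat.lt_succ_iff] using hi)] at h1
  exact ⟨i, u, h1⟩

theorem outb_of_gen {D : ℕ → Bool} {e x : ℕ} (h : x ∈ gen D e) :
    ∃ m, ∀ u, m ≤ u → outb u e (seg D u) x = true := by
  obtain ⟨k, t, h1⟩ := h
  refine ⟨k + t, fun u hu => exb_iff.2 ⟨k, by simp; omega, ?_⟩⟩
  rw [seg_take D (by omega)]
  exact isSome_mono (by omega) h1

theorem exists_gen {W : List Bool × ℕ → Prop} (hW : REPred W) :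
    ∃ e, ∀ D, gen D e = Out W D := by
  obtain ⟨c, hc⟩ := re_code hW
  refine ⟨encode c, fun D => Set.ext fun x => ?_⟩
  simp only [gen, Out, Set.mem_ofPred_eq, hc, Denumerable.ofNat_encode]
  rfl

theorem re_pairs {β : Type} [Primcodable β] {R : ℕ → β → Bool} {e x y : β → ℕ}
    (hR : Computable fun q : ℕ × β => R q.1 q.2) (he : Computable e) (hx : Computable x)
    (hy : Computable y) :
    ∃ W, REPred W ∧ ∀ D n, n ∈ Out W D ↔
      ∃ b, R n b = true ∧ x b ∈ gen D (e b) ∧ y b ∈ gen D (e b) := by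
  have h1 : Computable fun z : (List Bool × ℕ) × β => R z.1.2 z.2 :=
    c_app hR (Computable.snd.comp Computable.fst) Computable.snd
  have hσ : Computable fun z : (List Bool × ℕ) × β => z.1.1 := Computable.fst.comp Computable.fst
  have h2 := c_outb (c_length hσ) (he.comp Computable.snd) hσ (hx.comp Computable.snd)
  have h3 := c_outb (c_length hσ) (he.comp Computable.snd) hσ (hy.comp Computable.snd)
  refine ⟨fun p => ∃ b, (R p.2 b && outb p.1.length (e b) p.1 (x b) &&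
    outb p.1.length (e b) p.1 (y b)) = true,
    re_exists (R := fun (p : List Bool × ℕ) b => (R p.2 b && outb p.1.length (e b) p.1 (x b) &&
      outb p.1.length (e b) p.1 (y b)) = true) (re_bool (c_and (c_and h1 h2) h3)), fun D n => ?_⟩
  constructor
  · rintro ⟨k, b, h⟩
    simp only [Bool.and_eq_true] at h
    exact ⟨b, h.1.1, gen_of_outb (k := k) h.1.2, gen_of_outb (k := k) h.2⟩
  · rintro ⟨b, h, h4, h5⟩
    obtain ⟨m, hm⟩ := outb_of_gen h4
    obtain ⟨m', hm'⟩ := outb_of_gen h5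
    refine ⟨m + m', b, ?_⟩
    have e1 := hm (m + m') (by omega)
    have e2 := hm' (m + m') (by omega)
    show (R n b && outb (seg D (m + m')).length (e b) (seg D (m + m')) (x b) &&
      outb (seg D (m + m')).length (e b) (seg D (m + m')) (y b)) = true
    rw [seg_length, h, e1, e2]
    rfl

/-- the pairs of points a question asks about -/
def rel (eA eB : ℕ → ℕ → Bool) (c : Code) (q : ℕ × ℕ × ℕ × ℕ) (t x y : ℕ) : Bool :=
  cond (decide (q.1 = 0)) (decide (q.2.2.1 ≤ x))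
    (cond (decide (q.1 = 1)) (decide (q.2.2.1 ≤ x) && decide (x < t) &&
      decide (own (actc eA eB c) t x = (q.2.1, q.2.2.2))) (edge (actc eA eB c) eA eB t x y))

theorem exists_code_lim {eA eB : ℕ → ℕ → Bool} (hA : Computable fun q : ℕ × ℕ => eA q.1 q.2)
    (hB : Computable fun q : ℕ × ℕ => eB q.1 q.2) (D : ℕ → Bool)
    (hlow : ∀ W : List Bool × ℕ → Prop, REPred W → ∃ g : ℕ → ℕ → Bool, Computable₂ g ∧
      ∀ x, ∃ s0, ∀ s, s0 ≤ s → (g x s = true ↔ x ∈ Out W D)) :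
    ∃ c : Code, ∀ q, Lim (gh c q)
      (∃ t x y, rel eA eB c q t x y = true ∧ x ∈ gen D q.2.1 ∧ y ∈ gen D q.2.1) := by
  have p1 : Computable fun z : ℕ × (Code × ℕ × ℕ × ℕ × ℕ) × ℕ × ℕ × ℕ => z.2.1 :=
    Computable.fst.comp Computable.snd
  have pc := c_fst p1
  have pq := c_snd p1
  have p2 : Computable fun z : ℕ × (Code × ℕ × ℕ × ℕ × ℕ) × ℕ × ℕ × ℕ => z.2.2 :=
    Computable.snd.comp Computable.snd
  have pt := c_fst p2
  have px := c_fst (c_snd p2)
  have py := c_snd (c_snd p2)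
  have ha : Computable fun w : (ℕ × (Code × ℕ × ℕ × ℕ × ℕ) × ℕ × ℕ × ℕ) × ℕ =>
      actc eA eB w.1.2.1.1 w.2 := c_app (c_actc hA hB) (pc.comp Computable.fst) Computable.snd
  have h1 := c_own (act := fun z : ℕ × (Code × ℕ × ℕ × ℕ × ℕ) × ℕ × ℕ × ℕ => actc eA eB z.2.1.1)
    ha pt px
  have h2 := c_edge hA hB
    (act := fun z : ℕ × (Code × ℕ × ℕ × ℕ × ℕ) × ℕ × ℕ × ℕ => actc eA eB z.2.1.1) ha pt px py
  have h3 : Computable fun z : ℕ × (Code × ℕ × ℕ × ℕ × ℕ) × ℕ × ℕ × ℕ =>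
      decide (z.2.1.2.2.2.1 ≤ z.2.2.2.1) := c_decide_le (c_fst (c_snd (c_snd pq))) px
  have h4 : Computable fun z : ℕ × (Code × ℕ × ℕ × ℕ × ℕ) × ℕ × ℕ × ℕ =>
      rel eA eB z.2.1.1 z.2.1.2 z.2.2.1 z.2.2.2.1 z.2.2.2.2 :=
    c_cond (c_decide_eq (c_fst pq) (c_const 0)) h3
      (c_cond (c_decide_eq (c_fst pq) (c_const 1)) (c_and (c_and h3 (c_decide_lt px pt))
        (c_decide_eq h1 (c_mk (c_fst (c_snd pq)) (c_snd (c_snd (c_snd pq)))))) h2)
  have h5 : Computable fun z : ℕ × (Code × ℕ × ℕ × ℕ × ℕ) × ℕ × ℕ × ℕ =>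
      decide (z.1 = Nat.pair (encode z.2.1.1) (encode z.2.1.2)) :=
    c_decide_eq Computable.fst (c_pair (c_encode_code pc) (c_encode pq))
  obtain ⟨W, hW, hW'⟩ := re_pairs (β := (Code × ℕ × ℕ × ℕ × ℕ) × ℕ × ℕ × ℕ)
    (R := fun n b => decide (n = Nat.pair (encode b.1.1) (encode b.1.2)) &&
      rel eA eB b.1.1 b.1.2 b.2.1 b.2.2.1 b.2.2.2)
    (e := fun b => b.1.2.2.1) (x := fun b => b.2.2.1) (y := fun b => b.2.2.2) (c_and h5 h4)
    (c_fst (c_snd (c_snd Computable.fst))) (c_fst (c_snd Computable.snd))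
    (c_snd (c_snd Computable.snd))
  obtain ⟨g, hg, hg'⟩ := hlow W hW
  have hf : Computable fun z : Code × ℕ =>
      (g (Nat.pair (encode z.1) z.2.unpair.1) z.2.unpair.2).toNat :=
    c_toNat (hg.comp (c_pair (c_encode_code Computable.fst) (c_fst (c_unpair Computable.snd)))
      (c_snd (c_unpair Computable.snd)))
  obtain ⟨c, hc⟩ := Code.fixed_point₂ (f := fun c m =>
    Part.some (g (Nat.pair (encode c) m.unpair.1) m.unpair.2).toNat) hf
  refine ⟨c, fun q => gh_lim (v := g (Nat.pair (encode c) (encode q))) (fun t => ?_) ?_⟩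
  · rw [hc]
    simp only [Nat.unpair_pair]
  · obtain ⟨s0, hs0⟩ := hg' (Nat.pair (encode c) (encode q))
    refine ⟨s0, fun s hs => ?_⟩
    rw [hs0 s hs, hW']
    constructor
    · rintro ⟨⟨⟨c', q'⟩, t, x, y⟩, h, hx, hy⟩
      simp only [Bool.and_eq_true, decide_eq_true_eq, Nat.pair_eq_pair, encode_inj] at h
      obtain ⟨⟨rfl, rfl⟩, h⟩ := h
      exact ⟨t, x, y, h, hx, hy⟩
    · rintro ⟨t, x, y, h, hx, hy⟩
      exact ⟨((c, q), t, x, y), by simp [h], hx, hy⟩

theorem main (D : ℕ → Bool)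
    (hlow : ∀ W : List Bool × ℕ → Prop, REPred W → ∃ g : ℕ → ℕ → Bool, Computable₂ g ∧
      ∀ x, ∃ s0, ∀ s, s0 ≤ s → (g x s = true ↔ x ∈ Out W D))
    (hb : ∀ Y, IsInst Y → ∃ W, REPred W ∧ Sol Y (Out W D))
    (A B : ℕ → Prop) (hA : REPred A) (hB : REPred B) (hAB : ∀ n, A n → ¬ B n) :
    ∃ W0 W1 : List Bool × ℕ → Prop, REPred W0 ∧ REPred W1 ∧ (∀ n, n ∈ Out W0 D ∨ n ∈ Out W1 D) ∧
      (∀ n, B n → n ∉ Out W0 D) ∧ ∀ n, A n → n ∉ Out W1 D := by
  classical
  by_contra hno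
  obtain ⟨cA, hcA⟩ := re_code hA
  obtain ⟨cB, hcB⟩ := re_code hB
  obtain ⟨eA, heA⟩ : ∃ eA : ℕ → ℕ → Bool, eA = fun s n => (Code.evaln s cA (encode n)).isSome :=
    ⟨_, rfl⟩
  obtain ⟨eB, heB⟩ : ∃ eB : ℕ → ℕ → Bool, eB = fun s n => (Code.evaln s cB (encode n)).isSome :=
    ⟨_, rfl⟩
  have kA : Computable fun q : ℕ × ℕ => eA q.1 q.2 := by
    rw [heA]
    exact c_isSome (c_evaln Computable.fst (c_const _) (c_encode Computable.snd))
  have kB : Computable fun q : ℕ × ℕ => eB q.1 q.2 := by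
    rw [heB]
    exact c_isSome (c_evaln Computable.fst (c_const _) (c_encode Computable.snd))
  have mA : ∀ s n, eA s n = true → eA (s + 1) n = true := by
    rw [heA]
    exact fun s n h => isSome_mono (Nat.le_succ s) h
  have mB : ∀ s n, eB s n = true → eB (s + 1) n = true := by
    rw [heB]
    exact fun s n h => isSome_mono (Nat.le_succ s) h
  have sA : ∀ n, A n ↔ ∃ s, eA s n = true := by
    rw [heA]
    exact hcA
  have sB : ∀ n, B n ↔ ∃ s, eB s n = true := by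
    rw [heB]
    exact hcB
  have hm : ∀ s n, ent eA eB s n = true → ent eA eB (s + 1) n = true := by
    intro s n h
    simp only [ent, Bool.or_eq_true] at h ⊢
    exact h.imp (mA s n) (mB s n)
  obtain ⟨c, hc⟩ := exists_code_lim kA kB D hlow
  have kact : Computable (actc eA eB c) :=
    c_app (c_actc kA kB) (c_const c) Computable.id
  obtain ⟨W, hW, hS⟩ := hb (fun σ => tree (actc eA eB c) eA eB σ = true)
    ⟨ComputablePred.computable_iff.2 ⟨_, c_tree kA kB kact, rfl⟩, tree_prefix, tree_infinite hm⟩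
  obtain ⟨e0, he0⟩ := exists_gen hW
  refine verify (actc_eq eA eB c) hm (gen D) (fun e b => ?_) (fun e a k => ?_) (fun e => ?_)
    (fun e a ha hk => ?_) e0 (by rw [he0]; exact hS)
  · obtain ⟨s0, h⟩ := hc (0, e, b, 0)
    refine ⟨s0, fun s hs => (h s hs).trans ⟨?_, ?_⟩⟩
    · rintro ⟨t, x, y, h1, h2, -⟩
      exact ⟨x, by simpa [rel] using h1, h2⟩
    · rintro ⟨x, h1, h2⟩
      exact ⟨0, x, x, by simpa [rel] using h1, h2, h2⟩
  · obtain ⟨s0, h⟩ := hc (1, e, a, k)
    refine ⟨s0, fun s hs => (h s hs).trans ⟨?_, ?_⟩⟩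
    · rintro ⟨t, x, y, h1, h2, -⟩
      simp [rel] at h1
      exact ⟨x, t, h1.1.1, h1.1.2, h1.2, h2⟩
    · rintro ⟨x, t, h1, h2, h3, h4⟩
      exact ⟨t, x, x, by simp [rel, h1, h2, h3], h4, h4⟩
  · obtain ⟨s0, h⟩ := hc (2, e, 0, 0)
    refine ⟨s0, fun s hs => (h s hs).trans ?_⟩
    simp [rel, Kill]
  · by_contra hall
    have hall' : ∀ k, (∀ s, ent eA eB s (k / 2) = false) → Met (actc eA eB c) (gen D e) e a k := by
      intro k h1
      by_contra h2
      exact hall ⟨k, h1, h2⟩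
    have pn : Computable fun z : ℕ × ℕ × ℕ × ℕ => z.1 := Computable.fst
    have ps : Computable fun z : ℕ × ℕ × ℕ × ℕ => z.2.1 := c_fst Computable.snd
    have px : Computable fun z : ℕ × ℕ × ℕ × ℕ => z.2.2.1 := c_fst (c_snd Computable.snd)
    have py : Computable fun z : ℕ × ℕ × ℕ × ℕ => z.2.2.2 := c_snd (c_snd Computable.snd)
    have ka : Computable fun w : (ℕ × ℕ × ℕ × ℕ) × ℕ => actc eA eB c w.2 :=
      kact.comp Computable.snd
    have ox := c_own (act := fun _ => actc eA eB c) ka ps px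
    have oy := c_own (act := fun _ => actc eA eB c) ka ps py
    have cx := c_clr kA kB (act := fun _ => actc eA eB c) ka ps px
    have cy := c_clr kA kB (act := fun _ => actc eA eB c) ka ps py
    have hU : ∀ v : Bool, ∃ U, REPred U ∧ ∀ n, n ∈ Out U D ↔ ∃ s x y, a ≤ x ∧ a ≤ y ∧ x < s ∧
        y < s ∧ own (actc eA eB c) s x = (e, 2 * n) ∧ own (actc eA eB c) s y = (e, 2 * n + 1) ∧
        ent eA eB s n = false ∧
        xor (clr (actc eA eB c) eA eB s x) (clr (actc eA eB c) eA eB s y) = v ∧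
        x ∈ gen D e ∧ y ∈ gen D e := by
      intro v
      obtain ⟨U, hU, hU'⟩ := re_pairs (β := ℕ × ℕ × ℕ)
        (R := fun n b => decide (a ≤ b.2.1) && decide (a ≤ b.2.2) && decide (b.2.1 < b.1) &&
          decide (b.2.2 < b.1) && decide (own (actc eA eB c) b.1 b.2.1 = (e, 2 * n)) &&
          decide (own (actc eA eB c) b.1 b.2.2 = (e, 2 * n + 1)) && !(ent eA eB b.1 n) &&
          decide (xor (clr (actc eA eB c) eA eB b.1 b.2.1) (clr (actc eA eB c) eA eB b.1 b.2.2) = v))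
        (e := fun _ => e) (x := fun b => b.2.1) (y := fun b => b.2.2)
        (c_and (c_and (c_and (c_and (c_and (c_and (c_and (c_decide_le (c_const a) px)
          (c_decide_le (c_const a) py)) (c_decide_lt px ps)) (c_decide_lt py ps))
          (c_decide_eq ox (c_mk (c_const e) (c_mul (c_const 2) pn))))
          (c_decide_eq oy (c_mk (c_const e) (c_add (c_mul (c_const 2) pn) (c_const 1)))))
          (c_not (c_ent kA kB ps pn))) (c_decide_eq (c_xor cx cy) (c_const v)))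
        (c_const e) (c_fst Computable.snd) (c_snd Computable.snd)
      refine ⟨U, hU, fun n => (hU' D n).trans ⟨?_, ?_⟩⟩
      · rintro ⟨⟨s, x, y⟩, h, hx, hy⟩
        simp only [Bool.and_eq_true, decide_eq_true_eq, Bool.not_eq_true'] at h
        obtain ⟨⟨⟨⟨⟨⟨⟨h1, h2⟩, h3⟩, h4⟩, h5⟩, h6⟩, h7⟩, h8⟩ := h
        exact ⟨s, x, y, h1, h2, h3, h4, h5, h6, h7, h8, hx, hy⟩
      · rintro ⟨s, x, y, h1, h2, h3, h4, h5, h6, h7, h8, hx, hy⟩
        refine ⟨(s, x, y), ?_, hx, hy⟩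
        simp only [Bool.and_eq_true, decide_eq_true_eq, Bool.not_eq_true']
        exact ⟨⟨⟨⟨⟨⟨⟨h1, h2⟩, h3⟩, h4⟩, h5⟩, h6⟩, h7⟩, h8⟩
    obtain ⟨U0, hU0, hU0'⟩ := hU false
    obtain ⟨U1, hU1, hU1'⟩ := hU true
    apply hno
    refine ⟨fun p => A p.2 ∨ U0 p, fun p => B p.2 ∨ U1 p,
      re_or (re_comp hA Computable.snd) hU0, re_or (re_comp hB Computable.snd) hU1,
      fun n => ?_, fun n hn => ?_, fun n hn => ?_⟩
    · by_cases hn : ∀ s, ent eA eB s n = false
      · obtain ⟨x, t, x1, x2, x3, x4⟩ := hall' (2 * n) (by rwa [show 2 * n / 2 = n by omega])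
        obtain ⟨y, u, y1, y2, y3, y4⟩ :=
          hall' (2 * n + 1) (by rwa [show (2 * n + 1) / 2 = n by omega])
        have x5 := own_keep ha x1 x2 x3 (t + u) (by omega)
        have y5 := own_keep ha y1 y2 y3 (t + u) (by omega)
        cases hv : xor (clr (actc eA eB c) eA eB (t + u) x) (clr (actc eA eB c) eA eB (t + u) y)
        · obtain ⟨k, hk'⟩ := (hU0' n).2
            ⟨t + u, x, y, x1, y1, by omega, by omega, x5, y5, hn _, hv, x4, y4⟩
          exact Or.inl ⟨k, Or.inr hk'⟩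
        · obtain ⟨k, hk'⟩ := (hU1' n).2
            ⟨t + u, x, y, x1, y1, by omega, by omega, x5, y5, hn _, hv, x4, y4⟩
          exact Or.inr ⟨k, Or.inr hk'⟩
      · obtain ⟨s, hs⟩ := not_forall.1 hn
        have hs' : eA s n = true ∨ eB s n = true := by simpa [ent, or_iff_not_imp_left] using hs
        rcases hs' with h | h
        · exact Or.inl ⟨0, Or.inl ((sA n).2 ⟨s, h⟩)⟩
        · exact Or.inr ⟨0, Or.inl ((sB n).2 ⟨s, h⟩)⟩
    · rintro ⟨k, h | h⟩
      · exact hAB n h hn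
      · obtain ⟨s, x, y, h1, h2, h3, h4, h5, h6, h7, h8, hx, hy⟩ := (hU0' n).1 ⟨k, h⟩
        obtain ⟨u, hu⟩ := (sB n).1 hn
        obtain ⟨t, t1, t2⟩ := kill_of_wrong mA mB ha h1 h2 h3 h4 h5 h6 h7 u (by simp [ent, hu])
        have t3 : eA (t + 1) n = false := by
          simpa using fun h => hAB n ((sA n).2 ⟨_, h⟩) hn
        have t4 : eB (t + 1) n = true := by simpa [ent, t3] using t1
        exact hk ⟨t + 1, x, y, t2 (by rw [h8, t4]; rfl), hx, hy⟩
    · rintro ⟨k, h | h⟩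
      · exact hAB n hn h
      · obtain ⟨s, x, y, h1, h2, h3, h4, h5, h6, h7, h8, hx, hy⟩ := (hU1' n).1 ⟨k, h⟩
        obtain ⟨u, hu⟩ := (sA n).1 hn
        obtain ⟨t, t1, t2⟩ := kill_of_wrong mA mB ha h1 h2 h3 h4 h5 h6 h7 u (by simp [ent, hu])
        have t4 : eB (t + 1) n = false := by
          simpa using fun h => hAB n hn ((sB n).2 ⟨_, h⟩)
        exact hk ⟨t + 1, x, y, t2 (by rw [h8, t4]; rfl), hx, hy⟩

end Pool.Agent.FS.LowPA
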