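import Pool.Agent.FS.LowPA.Core

/-! The strategy of the requirements and its verification. -/

namespace Pool.Agent.FS.LowPA

open Pool.Agent.Lib.MP_aa609a_lc

/-- left end of the region of the requirement `e` -/
def ver (act : ℕ → ℕ × ℕ) (e s : ℕ) : ℕ := lastp (fun t => decide ((act t).1 < e)) s

/-- start of the current run of the task `k` of the requirement `e` -/
def run (act : ℕ → ℕ × ℕ) (e k s : ℕ) : ℕ :=
  lastp (fun t => decide ((act t).1 < e) || (decide ((act t).1 = e) && !decide ((act t).2 = k))) s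

/-- the least task that looks unmet -/
def kk (act : ℕ → ℕ × ℕ) (eA eB : ℕ → ℕ → Bool) (g : ℕ × ℕ × ℕ × ℕ → ℕ → Bool) (e s : ℕ) : ℕ :=
  mub s fun k => !(ent eA eB s (k / 2)) && !(g (1, e, ver act e s, k) s)

/-- the requirement `e` wants to act -/
def want (act : ℕ → ℕ × ℕ) (eA eB : ℕ → ℕ → Bool) (g : ℕ × ℕ × ℕ × ℕ → ℕ → Bool) (e s : ℕ) :
    Bool :=
  !(g (2, e, 0, 0) s) && decide (kk act eA eB g e s < s) &&
    g (0, e, run act e (kk act eA eB g e s) s, 0) s

/-- the action at stage `s` -/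
def nxt (act : ℕ → ℕ × ℕ) (eA eB : ℕ → ℕ → Bool) (g : ℕ × ℕ × ℕ × ℕ → ℕ → Bool) (s : ℕ) :
    ℕ × ℕ :=
  (mub s fun e => want act eA eB g e s, kk act eA eB g (mub s fun e => want act eA eB g e s) s)

theorem nxt_congr {act act' : ℕ → ℕ × ℕ} (eA eB : ℕ → ℕ → Bool) (g : ℕ × ℕ × ℕ × ℕ → ℕ → Bool)
    {s : ℕ} (h : ∀ t < s, act t = act' t) : nxt act eA eB g s = nxt act' eA eB g s := by
  have h1 : ∀ e, ver act e s = ver act' e s := fun e => lastp_congr fun t ht => by rw [h t ht]
  have h2 : ∀ e k, run act e k s = run act' e k s := fun e k =>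
    lastp_congr fun t ht => by rw [h t ht]
  have h3 : ∀ e, kk act eA eB g e s = kk act' eA eB g e s := fun e => by simp only [kk, h1]
  have h4 : ∀ e, want act eA eB g e s = want act' eA eB g e s := fun e => by
    simp only [want, h2, h3]
  simp only [nxt, h3, h4]

theorem mub_le_of {n : ℕ} {p : ℕ → Bool} {i : ℕ} (h : p i = true) : mub n p ≤ i := by
  by_contra h1
  rw [mub_min (n := n) (p := p) (i := i) (by omega)] at h
  cases h

/-- the guess `g` converges to the truth value of `P` -/
def Lim (g : ℕ → Bool) (P : Prop) : Prop := ∃ s0, ∀ s, s0 ≤ s → (g s = true ↔ P)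

section Ver

variable {act : ℕ → ℕ × ℕ} {eA eB : ℕ → ℕ → Bool} {g : ℕ × ℕ × ℕ × ℕ → ℕ → Bool}

/-- the task `k` of `e` with left end `a` owns a point of `G` -/
def Met (act : ℕ → ℕ × ℕ) (G : Set ℕ) (e a k : ℕ) : Prop :=
  ∃ x t, a ≤ x ∧ x < t ∧ own act t x = (e, k) ∧ x ∈ G

/-- `G` contains an edge -/
def Kill (act : ℕ → ℕ × ℕ) (eA eB : ℕ → ℕ → Bool) (G : Set ℕ) : Prop :=
  ∃ t x y, edge act eA eB t x y = true ∧ x ∈ G ∧ y ∈ G

theorem own_run {e k b : ℕ}
    (hb : ∀ t, b ≤ t → e < (act t).1 ∨ act t = (e, k)) {x s : ℕ} (hx : b ≤ x) (hs : x ≤ s) :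
    e < (own act (s + 1) x).1 ∨ own act (s + 1) x = (e, k) := by
  induction s, hs using Nat.le_induction with
  | base =>
    rw [own_succ]
    simpa using hb x hx
  | succ s hs ih =>
    rw [own_succ]
    cases decide (x < s + 1) && decide ((own act (s + 1) x).1 ≤ (act (s + 1)).1)
    · exact hb _ (by omega)
    · exact ih

theorem step (hact : ∀ s, act s = nxt act eA eB g s)
    (hm : ∀ s n, ent eA eB s n = true → ent eA eB (s + 1) n = true) (G : Set ℕ) (e : ℕ)
    (L0 : ∀ b, Lim (g (0, e, b, 0)) (∃ x, b ≤ x ∧ x ∈ G))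
    (L1 : ∀ a k, Lim (g (1, e, a, k)) (Met act G e a k))
    (L2 : Lim (g (2, e, 0, 0)) (Kill act eA eB G))
    (N : ∀ a, (∀ t, a ≤ t → e ≤ (act t).1) → ¬ Kill act eA eB G →
      ∃ k, (∀ s, ent eA eB s (k / 2) = false) ∧ ¬ Met act G e a k)
    (P : ∃ a, ∀ t, a ≤ t → e ≤ (act t).1) :
    (∃ a, ∀ t, a ≤ t → e + 1 ≤ (act t).1) ∧ (Kill act eA eB G ∨ G.Finite) := by
  classical
  have hmm : ∀ s v n, s ≤ v → ent eA eB s n = true → ent eA eB v n = true := by
    intro s v n hv h
    induction v, hv using Nat.le_induction with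
    | base => exact h
    | succ v _ ih => exact hm _ _ ih
  have A1 : ∀ s, want act eA eB g e s = true → (act s).1 ≤ e := fun s h => by
    rw [hact s]
    exact mub_le_of (p := fun e => want act eA eB g e s) h
  have A2 : ∀ s, e < s → (act s).1 = e →
      want act eA eB g e s = true ∧ (act s).2 = kk act eA eB g e s := fun s hs h => by
    have h1 : (mub s fun e => want act eA eB g e s) = e := by
      rw [hact s] at h
      exact h
    constructor
    · have := mub_spec (n := s) (p := fun e => want act eA eB g e s) (by omega)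
      rwa [h1] at this
    · rw [hact s]
      show kk act eA eB g (mub s fun e => want act eA eB g e s) s = _
      rw [h1]
  obtain ⟨a, ha, hver⟩ := lastp_stable (p := fun t => decide ((act t).1 < e))
    (P.imp fun a h t ht => by simpa using h t ht)
  have ha' : ∀ t, a ≤ t → e ≤ (act t).1 := fun t ht => by simpa using ha t ht
  obtain ⟨s2, hs2⟩ := L2
  by_cases hk : Kill act eA eB G
  · refine ⟨⟨a + s2 + e + 1, fun t ht => ?_⟩, Or.inl hk⟩
    by_contra h
    have h1 := ha' t (by omega)
    have h2 := (A2 t (by omega) (by omega)).1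
    simp [want, (hs2 t (by omega)).2 hk] at h2
  have hex := N a ha' hk
  obtain ⟨hk1, hk2⟩ := Nat.find_spec hex
  set k := Nat.find hex with hkdef
  have hlow : ∀ j, j ≤ k → ∃ s1, ∀ s, s1 ≤ s → ∀ i < j,
      (!(ent eA eB s (i / 2)) && !(g (1, e, a, i) s)) = false := by
    intro j
    induction j with
    | zero => exact fun _ => ⟨0, fun s _ i hi => absurd hi (by omega)⟩
    | succ j ih =>
      intro hj
      obtain ⟨s1, hs1⟩ := ih (by omega)
      have h1 := Nat.find_min hex (m := j) (by omega)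
      by_cases h2 : Met act G e a j
      · obtain ⟨s3, hs3⟩ := L1 a j
        refine ⟨s1 + s3, fun s hs i hi => ?_⟩
        rcases Nat.lt_succ_iff_lt_or_eq.1 hi with hi | rfl
        · exact hs1 s (by omega) i hi
        · simp [(hs3 s (by omega)).2 h2]
      · have h3 : ∃ s3, ent eA eB s3 (j / 2) = true := by
          by_contra h3
          exact h1 ⟨fun s => by simpa using fun h4 => h3 ⟨s, h4⟩, h2⟩
        obtain ⟨s3, hs3⟩ := h3
        refine ⟨s1 + s3, fun s hs i hi => ?_⟩
        rcases Nat.lt_succ_iff_lt_or_eq.1 hi with hi | rfl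
        · exact hs1 s (by omega) i hi
        · simp [hmm s3 s _ (by omega) hs3]
  obtain ⟨s1, hs1⟩ := hlow k le_rfl
  obtain ⟨s3, hs3⟩ := L1 a k
  have hkk : ∀ s, a + s1 + s3 + k + 1 ≤ s → kk act eA eB g e s = k := by
    intro s hs
    have hv : ver act e s = a := hver s (by omega)
    have h1 : kk act eA eB g e s ≤ k := by
      apply mub_le_of
      have : g (1, e, a, k) s = false := by
        simpa using fun h => hk2 ((hs3 s (by omega)).1 h)
      simp [hv, hk1 s, this]
    by_contra h2
    have h3 := mub_spec (n := s)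
      (p := fun k => !(ent eA eB s (k / 2)) && !(g (1, e, ver act e s, k) s))
      (show kk act eA eB g e s < s by omega)
    have h4 := hs1 s (by omega) (kk act eA eB g e s) (by omega)
    rw [hv] at h3
    have h5 : (mub s fun k => !(ent eA eB s (k / 2)) && !(g (1, e, a, k) s)) =
        kk act eA eB g e s := by
      rw [kk, hv]
    rw [h5, h4] at h3
    cases h3
  obtain ⟨b, hb, hrun⟩ := lastp_stable (p := fun t => decide ((act t).1 < e) ||
      (decide ((act t).1 = e) && !decide ((act t).2 = k)))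
    ⟨a + s1 + s3 + k + e + 1, fun t ht => by
      have h1 := ha' t (by omega)
      by_cases h2 : (act t).1 = e
      · have h3 := (A2 t (by omega) h2).2
        rw [hkk t (by omega)] at h3
        simp [h2, h3]
      · have h3 : ¬ (act t).1 < e := by omega
        simp [h2, h3]⟩
  have hb' : ∀ t, b ≤ t → e < (act t).1 ∨ act t = (e, k) := by
    intro t ht
    have h1 := hb t ht
    simp only [Bool.or_eq_false_iff, decide_eq_false_iff_not, Bool.and_eq_false_iff,
      Bool.not_eq_false', decide_eq_true_eq] at h1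
    by_cases h2 : (act t).1 = e
    · exact Or.inr (Prod.ext h2 (h1.2.resolve_left (not_not.2 h2)))
    · exact Or.inl (by omega)
  have hab : a ≤ b := by
    by_contra h
    obtain ⟨m, hm'⟩ : ∃ m, a = m + 1 := ⟨a - 1, by omega⟩
    have h1 := hver a le_rfl
    have h2 : ¬ (act m).1 < e := by
      rcases hb' m (by omega) with h3 | h3
      · omega
      · rw [h3]; simp
    have h3 : ∀ s, lastp (fun t => decide ((act t).1 < e)) s ≤ s := by
      intro s
      induction s with
      | zero => exact le_rfl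
      | succ s ih =>
        rw [lastp_succ]
        cases decide ((act s).1 < e)
        · simp only [cond_false]
          omega
        · simp
    rw [hm', lastp_succ] at h1
    have h4 := h3 m
    simp only [h2, decide_false, cond_false] at h1
    omega
  obtain ⟨s0, hs0⟩ := L0 b
  have hw : ∀ s, a + s1 + s3 + k + 1 + b + s0 + s2 ≤ s →
      (want act eA eB g e s = true ↔ ∃ x, b ≤ x ∧ x ∈ G) := by
    intro s hs
    have h1 : g (2, e, 0, 0) s = false := by
      simpa using fun h => hk ((hs2 s (by omega)).1 h)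
    have h2 : run act e k s = b := hrun s (by omega)
    have h3 : k < s := by omega
    rw [← hs0 s (by omega)]
    simp [want, h1, hkk s (by omega), h2, h3]
  have hno : ¬ ∃ x, b ≤ x ∧ x ∈ G := by
    rintro ⟨x, hx, hxG⟩
    apply hk2
    obtain ⟨s, hs⟩ : ∃ s, s = a + s1 + s3 + k + 1 + b + s0 + s2 + x := ⟨_, rfl⟩
    have h1 := A1 (s + 1) ((hw (s + 1) (by omega)).2 ⟨x, hx, hxG⟩)
    have h2 : act (s + 1) = (e, k) := (hb' (s + 1) (by omega)).resolve_left (by omega)
    refine ⟨x, s + 2, by omega, by omega, ?_, hxG⟩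
    rw [own_succ, h2]
    rcases own_run hb' hx (show x ≤ s by omega) with h3 | h3
    · have h4 : ¬ (own act (s + 1) x).1 ≤ e := by omega
      simp [h4]
    · rw [h3]
      simp
  refine ⟨⟨a + s1 + s3 + k + 1 + b + s0 + s2 + e, fun t ht => ?_⟩, Or.inr ?_⟩
  · by_contra h
    have h1 := ha' t (by omega)
    exact hno ((hw t (by omega)).1 (A2 t (by omega) (by omega)).1)
  · refine (Set.finite_lt_nat b).subset fun x hx => ?_
    by_contra h
    exact hno ⟨x, by simpa using h, hx⟩

theorem verify (hact : ∀ s, act s = nxt act eA eB g s)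
    (hm : ∀ s n, ent eA eB s n = true → ent eA eB (s + 1) n = true) (G : ℕ → Set ℕ)
    (L0 : ∀ e b, Lim (g (0, e, b, 0)) (∃ x, b ≤ x ∧ x ∈ G e))
    (L1 : ∀ e a k, Lim (g (1, e, a, k)) (Met act (G e) e a k))
    (L2 : ∀ e, Lim (g (2, e, 0, 0)) (Kill act eA eB (G e)))
    (N : ∀ e a, (∀ t, a ≤ t → e ≤ (act t).1) → ¬ Kill act eA eB (G e) →
      ∃ k, (∀ s, ent eA eB s (k / 2) = false) ∧ ¬ Met act (G e) e a k) (e : ℕ) :
    ¬ Sol (fun σ => tree act eA eB σ = true) (G e) := by
  have P : ∀ e, ∃ a, ∀ t, a ≤ t → e ≤ (act t).1 := by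
    intro e
    induction e with
    | zero => exact ⟨0, fun _ _ => Nat.zero_le _⟩
    | succ e ih => exact (step hact hm (G e) e (L0 e) (L1 e) (L2 e) (N e) ih).1
  rcases (step hact hm (G e) e (L0 e) (L1 e) (L2 e) (N e) (P e)).2 with ⟨t, x, y, h, hx, hy⟩ | h
  · exact not_sol_of_edge h hx hy
  · exact fun hs => hs.1 h

end Ver

end Pool.Agent.FS.LowPA
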